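import Mathlib
import Pool.Agent.Lib_helper95.KoszulChain

/-!
# Simplicial cohomology of complexes on a linearly ordered finite vertex set

A complex is a down-closed predicate on finsets (possibly void, i.e. without the empty face).
Cochains are arbitrary functions `Finset σ → k`.  Degrees are dimensions (`card - 1`), in `ℤ`.
-/

open Finset Pool.Agent.LibHelper95.Reg

namespace Pool.Agent.H66.GapFree

set_option linter.unusedSectionVars false

variable {σ : Type*} [Fintype σ] [LinearOrder σ] {k : Type*} [Field k]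

/-- The coboundary. -/
def cob (φ : Finset σ → k) (S : Finset σ) : k := ∑ v ∈ S, sgn k v S * φ (S.erase v)

/-- Contraction with `v`. -/
def ctr (v : σ) (φ : Finset σ → k) (S : Finset σ) : k :=
  if v ∈ S then 0 else sgn k v S * φ (insert v S)

theorem sgn_erase_self (v : σ) (S : Finset σ) : sgn k v (S.erase v) = sgn k v S := by
  by_cases h : v ∈ S
  · conv_rhs => rw [← Finset.insert_erase h]
    rw [sgn_insert_self]
  · rw [Finset.erase_eq_of_notMem h]

theorem cob_add (φ ψ : Finset σ → k) (S : Finset σ) :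
    cob (fun T => φ T + ψ T) S = cob φ S + cob ψ S := by
  unfold cob
  rw [← Finset.sum_add_distrib]
  exact Finset.sum_congr rfl fun v _ => by ring

theorem cob_sub (φ ψ : Finset σ → k) (S : Finset σ) :
    cob (fun T => φ T - ψ T) S = cob φ S - cob ψ S := by
  unfold cob
  rw [← Finset.sum_sub_distrib]
  exact Finset.sum_congr rfl fun v _ => by ring

/-- `cob` at `S` depends only on the values on the facets of `S`. -/
theorem cob_congr {φ ψ : Finset σ → k} {S : Finset σ} (h : ∀ v ∈ S, φ (S.erase v) = ψ (S.erase v)) :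
    cob φ S = cob ψ S := by
  unfold cob
  exact Finset.sum_congr rfl fun v hv => by rw [h v hv]

theorem cob_eq_zero {φ : Finset σ → k} {S : Finset σ} (h : ∀ v ∈ S, φ (S.erase v) = 0) :
    cob φ S = 0 := by
  unfold cob
  exact Finset.sum_eq_zero fun v hv => by rw [h v hv, mul_zero]

/-- The homotopy formula. -/
theorem cob_ctr (v : σ) (φ : Finset σ → k) (S : Finset σ) :
    cob (ctr v φ) S + ctr v (cob φ) S = φ S := by
  by_cases hv : v ∈ S
  · have h1 : ctr v (cob φ) S = 0 := if_pos hv
    rw [h1, add_zero]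
    unfold cob
    rw [Finset.sum_eq_single v]
    · unfold ctr
      rw [if_neg (Finset.notMem_erase v S), Finset.insert_erase hv, sgn_erase_self, ← mul_assoc,
        sgn_sq, one_mul]
    · intro w hw hwv
      unfold ctr
      rw [if_pos (Finset.mem_erase.2 ⟨fun h => hwv h.symm, hv⟩), mul_zero]
    · intro h; exact absurd hv h
  · have h1 : ctr v (cob φ) S = sgn k v S * cob φ (insert v S) := if_neg hv
    rw [h1]
    unfold cob
    rw [Finset.sum_insert hv, sgn_insert_self, Finset.erase_insert hv, mul_add, ← mul_assoc,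
      sgn_sq, one_mul, Finset.mul_sum]
    have e : (∑ w ∈ S, sgn k w S * ctr v φ (S.erase w)) +
        ∑ w ∈ S, sgn k v S * (sgn k w (insert v S) * φ ((insert v S).erase w)) = 0 := by
      rw [← Finset.sum_add_distrib]
      refine Finset.sum_eq_zero fun w hw => ?_
      have hwv : w ≠ v := fun h => hv (h ▸ hw)
      have hvR : v ∉ S.erase w := fun h => hv (Finset.mem_of_mem_erase h)
      have hwR : w ∉ S.erase w := Finset.notMem_erase w S
      unfold ctr
      rw [if_neg hvR, Finset.erase_insert_of_ne hwv.symm]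
      have hS : insert w (S.erase w) = S := Finset.insert_erase hw
      set R := S.erase w with hR
      have e1 : sgn k w S = sgn k w R := by rw [← hS, sgn_insert_self]
      have e2 : sgn k v S = sgn k v (insert w R) := by rw [hS]
      have e3 : sgn k w (insert v S) = sgn k w (insert v R) := by
        rw [← hS, Finset.insert_comm, sgn_insert_self]
      rw [e1, e2, e3]
      have hs := sgn_swap (k := k) hwv.symm R hvR hwR
      have q1 := sgn_sq (k := k) w R
      have q2 := sgn_sq (k := k) w (insert v R)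
      have q3 := sgn_sq (k := k) v R
      linear_combination φ (insert v R) * (sgn k w R) * (sgn k w (insert v R)) * hs -
        φ (insert v R) * sgn k v (insert w R) * sgn k w (insert v R) * q1 -
        φ (insert v R) * sgn k v R * sgn k w R * q2
    linear_combination e

theorem cob_cob (φ : Finset σ → k) (S : Finset σ) : cob (cob φ) S = 0 := by
  induction S using Finset.induction_on generalizing φ with
  | empty => simp [cob]
  | insert v S hv ih =>
    have h1 : ctr v (cob (cob φ)) S = 0 := by
      have a1 := cob_ctr v (cob φ) S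
      have a2 : cob (fun T => cob (ctr v φ) T + ctr v (cob φ) T) S = cob φ S := by
        congr 1
        funext T
        exact cob_ctr v φ T
      rw [cob_add, ih] at a2
      linear_combination a1 - a2
    unfold ctr at h1
    rw [if_neg hv] at h1
    exact (mul_eq_zero.1 h1).resolve_left (sgn_ne_zero v S)

theorem cob_cn (v : σ) (φ : Finset σ → k) (S : Finset σ) :
    cob (cn v φ) S + cn v (cob φ) S = 0 := by
  by_cases hv : v ∈ S
  · have h1 : cn v (cob φ) S = sgn k v S * cob φ (S.erase v) := if_pos hv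
    rw [h1]
    unfold cob
    rw [← Finset.add_sum_erase S _ hv, Finset.mul_sum]
    have h2 : cn v φ (S.erase v) = 0 := if_neg (Finset.notMem_erase v S)
    rw [h2, mul_zero, zero_add, ← Finset.sum_add_distrib]
    refine Finset.sum_eq_zero fun w hw => ?_
    obtain ⟨hwv, hwS⟩ := Finset.mem_erase.1 hw
    have h3 : cn v φ (S.erase w) = sgn k v (S.erase w) * φ ((S.erase w).erase v) :=
      if_pos (Finset.mem_erase.2 ⟨hwv.symm, hv⟩)
    rw [h3, Finset.erase_right_comm]
    set R := (S.erase v).erase w with hR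
    have hvR : v ∉ R := fun h => Finset.notMem_erase v S (Finset.mem_of_mem_erase h)
    have hwR : w ∉ R := Finset.notMem_erase _ _
    have e1 : S.erase v = insert w R := (Finset.insert_erase hw).symm
    have e2 : S = insert v (insert w R) := by rw [← e1, Finset.insert_erase hv]
    have e3 : S.erase w = insert v R := by
      rw [e2, Finset.insert_comm, Finset.erase_insert]
      simp only [Finset.mem_insert, not_or]
      exact ⟨hwv, hwR⟩
    have s1 : sgn k w S = sgn k w (insert v R) := by
      rw [e2, Finset.insert_comm, sgn_insert_self]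
    have s2 : sgn k v (S.erase w) = sgn k v R := by rw [e3, sgn_insert_self]
    have s3 : sgn k v S = sgn k v (insert w R) := by rw [e2, sgn_insert_self]
    have s4 : sgn k w (S.erase v) = sgn k w R := by rw [e1, sgn_insert_self]
    rw [s1, s2, s3, s4]
    have hs := sgn_swap (k := k) hwv.symm R hvR hwR
    linear_combination φ R * hs
  · have h1 : cn v (cob φ) S = 0 := if_neg hv
    rw [h1, add_zero]
    refine cob_eq_zero fun w hw => ?_
    exact if_neg fun h => hv (Finset.mem_of_mem_erase h)

/-- A complex: down-closed predicate. -/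
def Down (D : Finset σ → Prop) : Prop := ∀ S T, S ⊆ T → D T → D S

/-- Vanishing of the cohomology in dimension `j`. -/
def CV (k : Type*) [Field k] (D : Finset σ → Prop) (j : ℤ) : Prop :=
  ∀ φ : Finset σ → k, (∀ S, D S → (S.card : ℤ) = j + 2 → cob φ S = 0) →
    ∃ ψ : Finset σ → k, ∀ S, D S → (S.card : ℤ) = j + 1 → φ S = cob ψ S

/-- Vanishing of the relative cohomology of `(D, D')` in dimension `j`. -/
def RCV (k : Type*) [Field k] (D D' : Finset σ → Prop) (j : ℤ) : Prop :=
  ∀ φ : Finset σ → k, (∀ S, D' S → (S.card : ℤ) = j + 1 → φ S = 0) →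
    (∀ S, D S → (S.card : ℤ) = j + 2 → cob φ S = 0) →
    ∃ ψ : Finset σ → k, (∀ S, D' S → (S.card : ℤ) = j → ψ S = 0) ∧
      ∀ S, D S → (S.card : ℤ) = j + 1 → φ S = cob ψ S

/-- Deletion. -/
def del (D : Finset σ → Prop) (v : σ) : Finset σ → Prop := fun S => v ∉ S ∧ D S

/-- Link. -/
def lk (D : Finset σ → Prop) (v : σ) : Finset σ → Prop := fun S => v ∉ S ∧ D (insert v S)

theorem CV_cone {D : Finset σ → Prop} (x : σ) (h : ∀ S, D S → D (insert x S)) (j : ℤ) :
    CV k D j := by
  intro φ hφ
  refine ⟨ctr x φ, fun S hS hc => ?_⟩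
  have h1 := cob_ctr x φ S
  have h2 : ctr x (cob φ) S = 0 := by
    unfold ctr
    split_ifs with hx
    · rfl
    · rw [hφ _ (h S hS) (by rw [Finset.card_insert_of_notMem hx]; push_cast; omega), mul_zero]
  rw [h2, add_zero] at h1
  exact h1.symm

theorem CV_of_card {D : Finset σ → Prop} {j : ℤ} (h : ∀ S, D S → (S.card : ℤ) ≠ j + 1) :
    CV k D j := fun φ _ => ⟨φ, fun S hS hc => absurd hc (h S hS)⟩

theorem CV_void {D : Finset σ → Prop} (h : ∀ S, ¬ D S) (j : ℤ) : CV k D j :=
  CV_of_card fun S hS => absurd hS (h S)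

theorem CV_add {D : Finset σ → Prop} (hD : Down D) (v : σ) {j : ℤ} (h1 : CV k (del D v) j)
    (h2 : CV k (lk D v) (j - 1)) : CV k D j := by
  intro φ hφ
  obtain ⟨ψ, hψ⟩ := h1 φ fun S hS hc => hφ S hS.2 hc
  have hφ' : ∀ S, D S → (S.card : ℤ) = j + 2 → cob (fun T => φ T - cob ψ T) S = 0 := by
    intro S hS hc
    rw [cob_sub φ (cob ψ), cob_cob, hφ S hS hc, sub_zero]
  set φ' : Finset σ → k := fun T => φ T - cob ψ T with hφ'def
  have hφ'0 : ∀ S, v ∉ S → D S → (S.card : ℤ) = j + 1 → φ' S = 0 := by
    intro S hv hS hc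
    rw [hφ'def]
    simp only [hψ S ⟨hv, hS⟩ hc, sub_self]
  obtain ⟨χ, hχ⟩ := h2 (ctr v φ') (by
    rintro S ⟨hv, hS⟩ hc
    have a1 := cob_ctr v φ' S
    have a2 : ctr v (cob φ') S = 0 := by
      unfold ctr
      rw [if_neg hv, hφ' _ hS (by rw [Finset.card_insert_of_notMem hv]; push_cast; omega),
        mul_zero]
    rw [a2, add_zero, hφ'0 S hv (hD _ _ (Finset.subset_insert _ _) hS) (by omega)] at a1
    exact a1)
  refine ⟨fun T => ψ T - cn v χ T, fun S hS hc => ?_⟩
  rw [cob_sub]
  have e1 : φ S = φ' S + cob ψ S := by rw [hφ'def]; ring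
  have e2 := cob_cn v χ S
  have e3 : cn v (cob χ) S = φ' S := by
    by_cases hv : v ∈ S
    · have hins := Finset.insert_erase hv
      have hv' := Finset.notMem_erase v S
      have hcard : ((S.erase v).card : ℤ) = j := by
        have := Finset.card_erase_add_one hv
        omega
      have b1 : cn v (cob χ) S = sgn k v S * cob χ (S.erase v) := if_pos hv
      rw [b1, ← hχ (S.erase v) ⟨hv', by rw [hins]; exact hS⟩ (by omega)]
      unfold ctr
      rw [if_neg hv', hins, sgn_erase_self, ← mul_assoc, sgn_sq, one_mul]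
    · have b1 : cn v (cob χ) S = 0 := if_neg hv
      rw [b1, hφ'0 S hv hS hc]
  rw [e1]
  linear_combination e2 - e3

theorem CV_del {D : Finset σ → Prop} (hD : Down D) (v : σ) {j : ℤ} (h1 : CV k D j)
    (h2 : CV k (lk D v) j) : CV k (del D v) j := by
  intro φ hφ
  obtain ⟨χ, hχ⟩ := h2 φ (by
    rintro S ⟨hv, hS⟩ hc
    exact hφ S ⟨hv, hD _ _ (Finset.subset_insert _ _) hS⟩ hc)
  set φ0 : Finset σ → k := fun S => if v ∈ S then 0 else φ S with hφ0
  obtain ⟨ω, hω⟩ := h1 (fun S => φ0 S + cn v χ S) (by
    intro S hS hc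
    rw [cob_add φ0 (cn v χ)]
    have e2 := cob_cn v χ S
    by_cases hv : v ∈ S
    · have hins := Finset.insert_erase hv
      have hv' := Finset.notMem_erase v S
      have hcard : ((S.erase v).card : ℤ) = j + 1 := by
        have := Finset.card_erase_add_one hv
        omega
      have b1 : cn v (cob χ) S = sgn k v S * cob χ (S.erase v) := if_pos hv
      have b2 : cob φ0 S = sgn k v S * φ (S.erase v) := by
        unfold cob
        rw [Finset.sum_eq_single v]
        · rw [hφ0]; simp only [if_neg hv']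
        · intro w hw hwv
          rw [hφ0]
          simp only [if_pos (Finset.mem_erase.2 ⟨fun h => hwv h.symm, hv⟩ : v ∈ S.erase w),
            mul_zero]
        · intro h; exact absurd hv h
      rw [b1, ← hχ (S.erase v) ⟨hv', by rw [hins]; exact hS⟩ hcard] at e2
      rw [b2]
      linear_combination e2
    · have b1 : cn v (cob χ) S = 0 := if_neg hv
      have b2 : cob φ0 S = cob φ S := by
        refine cob_congr fun w hw => ?_
        rw [hφ0]
        simp only [if_neg (fun h => hv (Finset.mem_of_mem_erase h) : v ∉ S.erase w)]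
      rw [b2, hφ S ⟨hv, hS⟩ hc]
      rw [b1] at e2
      linear_combination e2)
  refine ⟨ω, ?_⟩
  rintro S ⟨hv, hS⟩ hc
  rw [← hω S hS hc, hφ0]
  simp only [if_neg hv]
  have : cn v χ S = 0 := if_neg hv
  rw [this, add_zero]

/-- The cone construction: `D ∪ v * D'`. -/
def Cn (v : σ) (D D' : Finset σ → Prop) : Finset σ → Prop :=
  fun S => if v ∈ S then D' (S.erase v) else D S

theorem CV_Cn_iff {D D' : Finset σ → Prop} {v : σ} {j : ℤ}
    (hDv : ∀ S, D S → v ∉ S) (hle : ∀ S, D' S → D S) :
    CV k (Cn v D D') j ↔ RCV k D D' j := by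
  constructor
  · intro h φ hφ0 hφ
    obtain ⟨ω, hω⟩ := h (fun S => if v ∈ S then 0 else φ S) (by
      intro S hS hc
      unfold Cn at hS
      by_cases hv : v ∈ S
      · rw [if_pos hv] at hS
        have hv' := Finset.notMem_erase v S
        have hcard : ((S.erase v).card : ℤ) = j + 1 := by
          have := Finset.card_erase_add_one hv
          omega
        refine cob_eq_zero fun w hw => ?_
        by_cases hwv : w = v
        · subst hwv
          rw [if_neg hv', hφ0 _ hS hcard]
        · rw [if_pos (Finset.mem_erase.2 ⟨fun h => hwv h.symm, hv⟩)]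
      · rw [if_neg hv] at hS
        rw [← hφ S hS hc]
        refine cob_congr fun w hw => ?_
        rw [if_neg (fun h => hv (Finset.mem_of_mem_erase h))])
    refine ⟨fun S => ω S - cob (ctr v ω) S, fun S hS hc => ?_, fun S hS hc => ?_⟩
    · have hv : v ∉ S := hDv S (hle S hS)
      have a1 := cob_ctr v ω S
      have a2 : ctr v (cob ω) S = 0 := by
        unfold ctr
        rw [if_neg hv, ← hω (insert v S), if_pos (Finset.mem_insert_self _ _), mul_zero]
        · unfold Cn
          rw [if_pos (Finset.mem_insert_self _ _), Finset.erase_insert hv]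
          exact hS
        · rw [Finset.card_insert_of_notMem hv]; push_cast; omega
      rw [a2, add_zero] at a1
      show ω S - cob (ctr v ω) S = 0
      rw [a1, sub_self]
    · have hv : v ∉ S := hDv S hS
      rw [cob_sub ω (cob (ctr v ω)), cob_cob, sub_zero, ← hω S, if_neg hv]
      · unfold Cn
        rw [if_neg hv]; exact hS
      · exact hc
  · intro h φ hφ
    have hφ1 : ∀ S, D' S → (S.card : ℤ) = j + 1 → φ S - cob (ctr v φ) S = 0 := by
      intro S hS hc
      have hv : v ∉ S := hDv S (hle S hS)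
      have a1 := cob_ctr v φ S
      have a2 : ctr v (cob φ) S = 0 := by
        unfold ctr
        rw [if_neg hv, hφ (insert v S), mul_zero]
        · unfold Cn
          rw [if_pos (Finset.mem_insert_self _ _), Finset.erase_insert hv]
          exact hS
        · rw [Finset.card_insert_of_notMem hv]; push_cast; omega
      rw [a2, add_zero] at a1
      rw [a1, sub_self]
    obtain ⟨ψ, hψ0, hψ⟩ := h (fun S => φ S - cob (ctr v φ) S) hφ1 (by
      intro S hS hc
      have hv : v ∉ S := hDv S hS
      rw [cob_sub φ (cob (ctr v φ)), cob_cob, sub_zero, hφ S _ hc]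
      unfold Cn
      rw [if_neg hv]; exact hS)
    refine ⟨fun S => ctr v φ S + (if v ∈ S then 0 else ψ S), fun S hS hc => ?_⟩
    rw [cob_add (ctr v φ)]
    unfold Cn at hS
    by_cases hv : v ∈ S
    · rw [if_pos hv] at hS
      have hv' := Finset.notMem_erase v S
      have hcard : ((S.erase v).card : ℤ) = j := by
        have := Finset.card_erase_add_one hv
        omega
      have a1 := cob_ctr v φ S
      have a2 : ctr v (cob φ) S = 0 := if_pos hv
      rw [a2, add_zero] at a1
      rw [a1]
      have a3 : cob (fun S => if v ∈ S then 0 else ψ S) S = 0 := by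
        refine cob_eq_zero fun w hw => ?_
        by_cases hwv : w = v
        · subst hwv
          rw [if_neg hv', hψ0 _ hS hcard]
        · rw [if_pos (Finset.mem_erase.2 ⟨fun h => hwv h.symm, hv⟩)]
      rw [a3, add_zero]
    · rw [if_neg hv] at hS
      have a3 : cob (fun S => if v ∈ S then 0 else ψ S) S = cob ψ S := by
        refine cob_congr fun w hw => ?_
        rw [if_neg (fun h => hv (Finset.mem_of_mem_erase h))]
      rw [a3, ← hψ S hS hc]
      ring

/-- The triple sequence. -/
theorem RCV_triple {D₀ D₁ D₂ : Finset σ → Prop} {j : ℤ} (h21 : ∀ S, D₂ S → D₁ S)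
    (h10 : ∀ S, D₁ S → D₀ S) (h1 : RCV k D₀ D₂ j) (h2 : RCV k D₁ D₂ (j - 1)) :
    RCV k D₀ D₁ j := by
  intro φ hφ0 hφ
  obtain ⟨ψ, hψ0, hψ⟩ := h1 φ (fun S hS hc => hφ0 S (h21 S hS) hc) hφ
  obtain ⟨χ, hχ0, hχ⟩ := h2 ψ (fun S hS hc => hψ0 S hS (by omega)) (by
    intro S hS hc
    rw [← hψ S (h10 S hS) (by omega), hφ0 S hS (by omega)])
  refine ⟨fun S => ψ S - cob χ S, fun S hS hc => ?_, fun S hS hc => ?_⟩
  · show ψ S - cob χ S = 0
    rw [hχ S hS (by omega), sub_self]
  · rw [cob_sub ψ (cob χ), cob_cob, sub_zero]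
    exact hψ S hS hc

/-- The triple sequence, second form. -/
theorem RCV_triple' {D₀ D₁ D₂ : Finset σ → Prop} {j : ℤ} (h21 : ∀ S, D₂ S → D₁ S)
    (h10 : ∀ S, D₁ S → D₀ S) (h1 : RCV k D₀ D₁ j) (h2 : RCV k D₁ D₂ j) :
    RCV k D₀ D₂ j := by
  intro φ hφ0 hφ
  obtain ⟨ψ, hψ0, hψ⟩ := h2 φ hφ0 (fun S hS hc => hφ S (h10 S hS) hc)
  obtain ⟨χ, hχ0, hχ⟩ := h1 (fun S => φ S - cob ψ S)
    (fun S hS hc => by rw [hψ S hS hc, sub_self])
    (fun S hS hc => by rw [cob_sub φ (cob ψ), cob_cob, sub_zero, hφ S hS hc])
  refine ⟨fun S => ψ S + χ S, fun S hS hc => ?_, fun S hS hc => ?_⟩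
  · show ψ S + χ S = 0
    rw [hψ0 S hS hc, hχ0 S (h21 S hS) hc, add_zero]
  · rw [cob_add, ← hχ S hS hc]; ring

end Pool.Agent.H66.GapFree
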