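import Mathlib
import Pool.Agent.Lib_helper66.GapFree.Coho
import Pool.Agent.Lib_helper95.EdgeColon

/-!
# The complexes `Γ(S, κ)` of a weighted gap-free graph
-/

open Finset Pool.Agent.LibHelper95.Reg

namespace Pool.Agent.H66.GapFree

set_option linter.unusedSectionVars false

variable {V : Type*} [Fintype V] [LinearOrder V] {k : Type*} [Field k]

/-- No induced `2K₂`: two edges meet or are joined by an edge. -/
def Gap (G : SimpleGraph V) : Prop := ∀ x y z w, G.Adj x y → G.Adj z w →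
  x = z ∨ x = w ∨ y = z ∨ y = w ∨ G.Adj x z ∨ G.Adj x w ∨ G.Adj y z ∨ G.Adj y w

variable (G : SimpleGraph V) (a : V → ℕ)

open Classical in
/-- Neighbours in `S` of the set `F`. -/
noncomputable def nb (S F : Finset V) : Finset V := S.filter fun v => ∃ u ∈ F, G.Adj u v

open Classical in
/-- `S` minus the closed neighbourhood of `v`. -/
noncomputable def sN (S : Finset V) (v : V) : Finset V := S.filter fun w => w ≠ v ∧ ¬ G.Adj v w

/-- Weight. -/
def wt (F : Finset V) : ℤ := ∑ v ∈ F, (a v : ℤ)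

/-- Surplus. -/
noncomputable def dd (S F : Finset V) : ℤ := wt a F - wt a (nb G S F)

/-- The complex. -/
def Gam (S : Finset V) (κ : ℤ) (F : Finset V) : Prop :=
  ∃ F', F ⊆ F' ∧ F' ⊆ S ∧ Ind G F' ∧ -κ ≤ dd G a S F'

/-- Induced subcomplex on `U`. -/
def KG (S : Finset V) (κ : ℤ) (U : Finset V) (F : Finset V) : Prop := F ⊆ U ∧ Gam G a S κ F

variable {G a}

open Classical in
theorem mem_nb {S F : Finset V} {v : V} : v ∈ nb G S F ↔ v ∈ S ∧ ∃ u ∈ F, G.Adj u v := by
  unfold nb; rw [Finset.mem_filter]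

open Classical in
theorem mem_sN {S : Finset V} {v w : V} : w ∈ sN G S v ↔ w ∈ S ∧ w ≠ v ∧ ¬ G.Adj v w := by
  unfold sN; rw [Finset.mem_filter]

open Classical in
theorem sN_subset {S : Finset V} {v : V} : sN G S v ⊆ S := Finset.filter_subset _ _

theorem sN_card_lt {S : Finset V} {v : V} (hv : v ∈ S) : (sN G S v).card < S.card := by
  refine Finset.card_lt_card ⟨sN_subset, fun h => ?_⟩
  exact (mem_sN.1 (h hv)).2.1 rfl

open Classical in
theorem nb_subset {S F : Finset V} : nb G S F ⊆ S := Finset.filter_subset _ _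

theorem nb_empty {S : Finset V} : nb G S ∅ = ∅ := by
  ext v; simp [mem_nb]

theorem wt_nonneg (F : Finset V) : 0 ≤ wt a F := Finset.sum_nonneg fun v _ => by positivity

theorem wt_mono {F F' : Finset V} (h : F ⊆ F') : wt a F ≤ wt a F' :=
  Finset.sum_le_sum_of_subset_of_nonneg h fun v _ _ => by positivity

theorem wt_union_disj {F F' : Finset V} (h : Disjoint F F') : wt a (F ∪ F') = wt a F + wt a F' :=
  Finset.sum_union h

theorem wt_union_le (F F' : Finset V) : wt a (F ∪ F') ≤ wt a F + wt a F' := by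
  rw [← Finset.union_sdiff_self_eq_union, wt_union_disj Finset.disjoint_sdiff]
  have : wt a (F' \ F) ≤ wt a F' := wt_mono Finset.sdiff_subset
  omega

theorem wt_sdiff {F F' : Finset V} (h : F ⊆ F') : wt a (F' \ F) = wt a F' - wt a F := by
  have := wt_union_disj (a := a) (Finset.disjoint_sdiff (s := F) (t := F'))
  rw [Finset.union_sdiff_of_subset h] at this
  omega

theorem wt_insert {F : Finset V} {v : V} (h : v ∉ F) : wt a (insert v F) = a v + wt a F :=
  Finset.sum_insert h

theorem wt_empty : wt a (∅ : Finset V) = 0 := Finset.sum_empty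

theorem dd_empty {S : Finset V} : dd G a S ∅ = 0 := by
  unfold dd; rw [nb_empty, wt_empty]; rfl

theorem wt_eq_zero {F : Finset V} (hpos : ∀ v ∈ F, 1 ≤ a v) (h : wt a F ≤ 0) : F = ∅ := by
  by_contra hne
  obtain ⟨v, hv⟩ := Finset.nonempty_iff_ne_empty.2 hne
  have h1 : wt a {v} ≤ wt a F := wt_mono (Finset.singleton_subset_iff.2 hv)
  have h2 : wt a {v} = a v := Finset.sum_singleton _ _
  have := hpos v hv
  omega

theorem Ind.mono {F F' : Finset V} (h : F ⊆ F') (h' : Ind G F') : Ind G F :=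
  fun u hu v hv => h' u (h hu) v (h hv)

theorem nb_insert {S F : Finset V} {v : V} (hF : F ⊆ sN G S v) :
    nb G S (insert v F) = nb G S {v} ∪ nb G (sN G S v) F := by
  ext w
  simp only [mem_nb, Finset.mem_union, Finset.mem_insert, Finset.mem_singleton, exists_eq_or_imp,
    exists_eq_left, mem_sN]
  constructor
  · rintro ⟨hw, h | ⟨u, hu, huw⟩⟩
    · exact Or.inl ⟨hw, h⟩
    · by_cases h1 : G.Adj v w
      · exact Or.inl ⟨hw, h1⟩
      · refine Or.inr ⟨⟨hw, ?_, h1⟩, u, hu, huw⟩
        rintro rfl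
        exact (mem_sN.1 (hF hu)).2.2 huw.symm
  · rintro (⟨hw, h⟩ | ⟨⟨hw, _, _⟩, u, hu, huw⟩)
    · exact ⟨hw, Or.inl h⟩
    · exact ⟨hw, Or.inr ⟨u, hu, huw⟩⟩

theorem nb_disj {S F : Finset V} {v : V} : Disjoint (nb G S {v}) (nb G (sN G S v) F) := by
  rw [Finset.disjoint_left]
  intro w h1 h2
  simp only [mem_nb, Finset.mem_singleton, exists_eq_left, mem_sN] at h1 h2
  exact h2.1.2.2 h1.2

theorem dd_insert {S F : Finset V} {v : V} (hF : F ⊆ sN G S v) :
    dd G a S (insert v F) = a v - wt a (nb G S {v}) + dd G a (sN G S v) F := by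
  have hv : v ∉ F := fun h => (mem_sN.1 (hF h)).2.1 rfl
  unfold dd
  rw [wt_insert hv, nb_insert hF, wt_union_disj nb_disj]
  ring

theorem wt_split {S : Finset V} {v : V} (hv : v ∈ S) :
    wt a S = a v + wt a (nb G S {v}) + wt a (sN G S v) := by
  have h1 : S = insert v (nb G S {v} ∪ sN G S v) := by
    ext w
    simp only [Finset.mem_insert, Finset.mem_union, mem_nb, Finset.mem_singleton, exists_eq_left,
      mem_sN]
    constructor
    · intro hw
      by_cases h2 : w = v
      · exact Or.inl h2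
      · by_cases h3 : G.Adj v w
        · exact Or.inr (Or.inl ⟨hw, h3⟩)
        · exact Or.inr (Or.inr ⟨hw, h2, h3⟩)
    · rintro (rfl | ⟨hw, _⟩ | ⟨hw, _⟩)
      · exact hv
      · exact hw
      · exact hw
  have h2 : v ∉ nb G S {v} ∪ sN G S v := by
    simp only [Finset.mem_union, mem_nb, Finset.mem_singleton, exists_eq_left, mem_sN, not_or]
    exact ⟨fun h => G.irrefl h.2, fun h => h.2.1 rfl⟩
  have h3 : Disjoint (nb G S {v}) (sN G S v) := by
    rw [Finset.disjoint_left]
    intro w h1 h2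
    simp only [mem_nb, Finset.mem_singleton, exists_eq_left, mem_sN] at h1 h2
    exact h2.2.2 h1.2
  conv_lhs => rw [h1]
  rw [wt_insert h2, wt_union_disj h3]
  ring

theorem Gam_down {S : Finset V} {κ : ℤ} : Down (Gam G a S κ) := by
  rintro F F1 hF ⟨F', h1, h2⟩
  exact ⟨F', hF.trans h1, h2⟩

theorem KG_down {S U : Finset V} {κ : ℤ} : Down (KG G a S κ U) := by
  rintro F F1 hF ⟨h1, h2⟩
  exact ⟨hF.trans h1, Gam_down _ _ hF h2⟩

theorem KG_self {S : Finset V} {κ : ℤ} : KG G a S κ S = Gam G a S κ := by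
  funext F
  refine propext ⟨fun h => h.2, fun h => ⟨?_, h⟩⟩
  obtain ⟨F', h1, h2, _⟩ := h
  exact h1.trans h2

theorem del_KG {S U : Finset V} {κ : ℤ} {v : V} :
    del (KG G a S κ U) v = KG G a S κ (U.erase v) := by
  funext F
  refine propext ⟨?_, ?_⟩
  · rintro ⟨h1, h2, h3⟩
    exact ⟨fun x hx => Finset.mem_erase.2 ⟨fun h => h1 (h ▸ hx), h2 hx⟩, h3⟩
  · rintro ⟨h1, h2⟩
    exact ⟨fun h => (Finset.mem_erase.1 (h1 h)).1 rfl, h1.trans (Finset.erase_subset _ _), h2⟩

theorem lk_KG {S U : Finset V} {κ : ℤ} {v : V} (hv : v ∈ U) (hU : U ⊆ S) :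
    lk (KG G a S κ U) v = KG G a (sN G S v) (κ + a v - wt a (nb G S {v})) (sN G U v) := by
  funext F
  refine propext ⟨?_, ?_⟩
  · rintro ⟨h1, h2, F', h3, h4, h5, h6⟩
    have hvF' : v ∈ F' := h3 (Finset.mem_insert_self _ _)
    refine ⟨fun w hw => mem_sN.2 ⟨h2 (Finset.mem_insert_of_mem hw), fun h => h1 (h ▸ hw),
      h5 v hvF' w (h3 (Finset.mem_insert_of_mem hw))⟩, F'.erase v, fun w hw =>
      Finset.mem_erase.2 ⟨fun h => h1 (h ▸ hw), h3 (Finset.mem_insert_of_mem hw)⟩, ?_, ?_, ?_⟩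
    · intro w hw
      obtain ⟨hw1, hw2⟩ := Finset.mem_erase.1 hw
      exact mem_sN.2 ⟨h4 hw2, hw1, h5 v hvF' w hw2⟩
    · exact Ind.mono (Finset.erase_subset _ _) h5
    · have hsub : F'.erase v ⊆ sN G S v := by
        intro w hw
        obtain ⟨hw1, hw2⟩ := Finset.mem_erase.1 hw
        exact mem_sN.2 ⟨h4 hw2, hw1, h5 v hvF' w hw2⟩
      have := dd_insert (a := a) hsub
      rw [Finset.insert_erase hvF'] at this
      omega
  · rintro ⟨h1, F', h2, h3, h4, h5⟩
    have hvF' : v ∉ F' := fun h => (mem_sN.1 (h3 h)).2.1 rfl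
    refine ⟨fun h => hvF' (h2 h), ?_, insert v F', Finset.insert_subset_insert _ h2, ?_, ?_, ?_⟩
    · intro w hw
      rcases Finset.mem_insert.1 hw with rfl | hw
      · exact hv
      · exact sN_subset (h1 hw)
    · intro w hw
      rcases Finset.mem_insert.1 hw with rfl | hw
      · exact hU hv
      · exact sN_subset (h3 hw)
    · exact h4.insert fun t ht => (mem_sN.1 (h3 ht)).2.2
    · rw [dd_insert h3]
      omega

/-- The claim for `S`. -/
def CW (k : Type*) [Field k] (G : SimpleGraph V) (a : V → ℕ) (S : Finset V) : Prop :=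
  ∀ κ : ℤ, Odd (κ + wt a S) → ∀ j, κ ≤ j → CV k (Gam G a S κ) j

theorem odd_link {S : Finset V} {v : V} (hv : v ∈ S) {κ : ℤ} (h : Odd (κ + wt a S)) :
    Odd (κ + a v - wt a (nb G S {v}) + wt a (sN G S v)) := by
  rw [wt_split (G := G) hv] at h
  have : κ + a v - wt a (nb G S {v}) + wt a (sN G S v) =
      κ + (a v + wt a (nb G S {v}) + wt a (sN G S v)) + 2 * (- wt a (nb G S {v})) := by ring
  rw [this]
  exact h.add_even (even_two_mul _)

theorem bbound {N : ℕ} (IH : ∀ S' : Finset V, S'.card < N → (∀ v ∈ S', 1 ≤ a v) → CW k G a S') :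
    ∀ (m : ℕ) (S U : Finset V), S.card + (S \ U).card = m → S.card < N → (∀ v ∈ S, 1 ≤ a v) →
      U ⊆ S → ∀ κ : ℤ, Odd (κ + wt a S) → ∀ j,
      (∀ L, L ⊆ S \ U → Ind G L → κ + dd G a S L ≤ j) → CV k (KG G a S κ U) j := by
  intro m
  induction m using Nat.strong_induction_on with
  | _ m ih =>
    intro S U hm hN hpos hU κ hκ j hL
    by_cases hemp : S \ U = ∅
    · have hSU : U = S := Finset.Subset.antisymm hU (Finset.sdiff_eq_empty_iff_subset.1 hemp)
      subst hSU
      rw [KG_self]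
      refine IH U hN hpos κ hκ j ?_
      have := hL ∅ (Finset.empty_subset _) (fun u hu => by simp at hu)
      rw [dd_empty] at this
      omega
    · obtain ⟨w, hw⟩ := Finset.nonempty_iff_ne_empty.2 hemp
      obtain ⟨hwS, hwU⟩ := Finset.mem_sdiff.1 hw
      have hU' : insert w U ⊆ S := Finset.insert_subset hwS hU
      have e1 : KG G a S κ U = del (KG G a S κ (insert w U)) w := by
        rw [del_KG, Finset.erase_insert hwU]
      rw [e1]
      have hcard : (S \ insert w U).card < (S \ U).card := by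
        refine Finset.card_lt_card ⟨Finset.sdiff_subset_sdiff (Finset.Subset.refl _)
          (Finset.subset_insert _ _), fun h => ?_⟩
        exact (Finset.mem_sdiff.1 (h hw)).2 (Finset.mem_insert_self _ _)
      refine CV_del KG_down w ?_ ?_
      · refine ih _ ?_ S (insert w U) rfl hN hpos hU' κ hκ j fun L hL' hI => hL L ?_ hI
        · omega
        · exact hL'.trans (Finset.sdiff_subset_sdiff (Finset.Subset.refl _)
            (Finset.subset_insert _ _))
      · rw [lk_KG (Finset.mem_insert_self _ _) hU']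
        have hc1 := sN_card_lt (G := G) hwS
        have hsub : sN G S w \ sN G (insert w U) w ⊆ S \ U := by
          intro x hx
          obtain ⟨hx1, hx2⟩ := Finset.mem_sdiff.1 hx
          obtain ⟨hx3, hx4⟩ := mem_sN.1 hx1
          exact Finset.mem_sdiff.2 ⟨hx3, fun h => hx2 (mem_sN.2 ⟨Finset.mem_insert_of_mem h, hx4⟩)⟩
        have hc2 := Finset.card_le_card hsub
        refine ih _ ?_ (sN G S w) (sN G (insert w U) w) rfl (by omega)
          (fun v hv => hpos v (sN_subset hv)) ?_ _ (odd_link hwS hκ) j ?_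
        · omega
        · intro x hx
          obtain ⟨hx3, hx4⟩ := mem_sN.1 hx
          exact mem_sN.2 ⟨hU' hx3, hx4⟩
        · intro L hL' hI
          have h2 : L ⊆ sN G S w := hL'.trans Finset.sdiff_subset
          have h3 := hL (insert w L) (Finset.insert_subset hw (hL'.trans hsub))
            (hI.insert fun t ht => (mem_sN.1 (h2 ht)).2.2)
          rw [dd_insert h2] at h3
          omega

theorem ADD {S : Finset V}
    (IH : ∀ S' : Finset V, S'.card < S.card → (∀ v ∈ S', 1 ≤ a v) → CW k G a S')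
    (hpos : ∀ v ∈ S, 1 ≤ a v) {κ : ℤ} (hκ : Odd (κ + wt a S)) {U : Finset V} (hU : U ⊆ S)
    {v : V} (hv : v ∈ S) (hvU : v ∉ U)
    (hL : ∀ L, L ⊆ S \ U → v ∈ L → Ind G L → dd G a S L ≤ -1) {j : ℤ} (hj : κ ≤ j)
    (h : CV k (KG G a S κ U) j) : CV k (KG G a S κ (insert v U)) j := by
  have hU' : insert v U ⊆ S := Finset.insert_subset hv hU
  refine CV_add KG_down v ?_ ?_
  · rw [del_KG, Finset.erase_insert hvU]; exact h
  · rw [lk_KG (Finset.mem_insert_self _ _) hU']
    refine bbound IH _ (sN G S v) (sN G (insert v U) v) rfl (sN_card_lt hv)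
      (fun v hv => hpos v (sN_subset hv)) ?_ _ (odd_link hv hκ) _ ?_
    · intro x hx
      obtain ⟨hx3, hx4⟩ := mem_sN.1 hx
      exact mem_sN.2 ⟨hU' hx3, hx4⟩
    · intro L hL' hI
      have h2 : L ⊆ sN G S v := hL'.trans Finset.sdiff_subset
      have h3 : L ⊆ S \ U := by
        intro x hx
        obtain ⟨hx1, hx2⟩ := Finset.mem_sdiff.1 (hL' hx)
        obtain ⟨hx3, hx4⟩ := mem_sN.1 hx1
        exact Finset.mem_sdiff.2 ⟨hx3, fun h => hx2 (mem_sN.2 ⟨Finset.mem_insert_of_mem h, hx4⟩)⟩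
      have h4 := hL (insert v L) (Finset.insert_subset (Finset.mem_sdiff.2 ⟨hv, hvU⟩) h3)
        (Finset.mem_insert_self _ _) (hI.insert fun t ht => (mem_sN.1 (h2 ht)).2.2)
      rw [dd_insert h2] at h4
      omega

/-- Adding an element all of whose neighbours are neighbours of `F`. -/
theorem dd_insert_le {S F : Finset V} {x : V} (h : nb G S {x} ⊆ nb G S F) :
    dd G a S F ≤ dd G a S (insert x F) := by
  have h1 : nb G S (insert x F) ⊆ nb G S F := by
    intro w hw
    obtain ⟨hw1, u, hu, huw⟩ := mem_nb.1 hw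
    rcases Finset.mem_insert.1 hu with rfl | hu
    · exact h (mem_nb.2 ⟨hw1, u, Finset.mem_singleton_self _, huw⟩)
    · exact mem_nb.2 ⟨hw1, u, hu, huw⟩
  have h2 := wt_mono (a := a) h1
  have h3 := wt_mono (a := a) (Finset.subset_insert x F)
  unfold dd
  omega

theorem CV_isolated {S : Finset V} {x : V} (hx : x ∈ S) (h : nb G S {x} = ∅) (κ : ℤ) (j : ℤ) :
    CV k (Gam G a S κ) j := by
  refine CV_cone x ?_ j
  rintro F ⟨F', h1, h2, h3, h4⟩
  refine ⟨insert x F', Finset.insert_subset_insert _ h1, Finset.insert_subset hx h2, ?_, ?_⟩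
  · refine h3.insert fun t ht hxt => ?_
    have : t ∈ nb G S {x} := mem_nb.2 ⟨h2 ht, x, Finset.mem_singleton_self _, hxt⟩
    rw [h] at this
    simp at this
  · refine h4.trans (dd_insert_le ?_)
    rw [h]; exact Finset.empty_subset _

end Pool.Agent.H66.GapFree
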