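import Mathlib
import Pool.Agent.Lib_helper66.GapFree.Topo

/-!
# Maximum `b`-matchings in gap-free graphs

A Tutte–Berge type formula; the proof is Gallai's lemma based on the exchange property of
multisets of edges.
-/

open Finset Pool.Agent.LibHelper95.Reg

namespace Pool.Agent.H66.GapFree

set_option linter.unusedSectionVars false

variable {V : Type*} [Fintype V] [LinearOrder V]

variable {G : SimpleGraph V}

/-- `b`-matchings. -/
def IsM (G : SimpleGraph V) (a : V → ℕ) (M : Multiset (Sym2 V)) : Prop :=
  IsE G M ∧ ∀ x, dg M x ≤ a x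

/-- No maximum `b`-matching misses both `p` and `q`. -/
def Par (G : SimpleGraph V) (a : V → ℕ) (ν : ℕ) (p q : V) : Prop :=
  ∀ M, IsM G a M → M.card = ν → ¬ ∀ x, dg M x + dl p x + dl q x ≤ a x

theorem Par.symm {a : V → ℕ} {ν : ℕ} {p q : V} (h : Par G a ν p q) : Par G a ν q p :=
  fun M h1 h2 h3 => h M h1 h2 fun x => by have := h3 x; omega

theorem Par.of_adj {a : V → ℕ} {ν : ℕ} (hν : ∀ M, IsM G a M → M.card ≤ ν) {p q : V}
    (h : G.Adj p q) : Par G a ν p q := by
  intro M hM hc h1
  have := hν (s(p, q) ::ₘ M) ⟨hM.1.cons h, fun x => by rw [dg_cons h.ne]; exact h1 x⟩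
  rw [Multiset.card_cons] at this
  omega

theorem sum_dl (u : V) : ∑ x, dl u x = 1 := by
  unfold dl
  simp

theorem Par.trans {a : V → ℕ} {ν : ℕ} (hν : ∀ M, IsM G a M → M.card ≤ ν) {u v w : V}
    (hw : ∃ M, IsM G a M ∧ M.card = ν ∧ dg M w < a w)
    (h1 : Par G a ν u w) (h2 : Par G a ν w v) : Par G a ν u v := by
  intro M hM hc hx
  -- `M` covers `w`
  have hMw : a w ≤ dg M w := by
    by_contra hcon
    push Not at hcon
    by_cases huw : u = w
    · subst huw
      exact h2 M hM hc hx
    · refine h1 M hM hc fun x => ?_
      by_cases hxw : x = w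
      · subst hxw
        rw [dl_ne (fun h => huw h.symm), dl_self]
        omega
      · rw [dl_ne hxw]
        have := hx x
        omega
  have huw : u ≠ w := by
    rintro rfl
    have := hx u
    rw [dl_self] at this
    omega
  have hvw : v ≠ w := by
    rintro rfl
    have := hx v
    rw [dl_self] at this
    omega
  -- the closest matching missing `w`
  have key : ∀ (n : ℕ) (M' : Multiset (Sym2 V)), ∑ x, (dg M x - dg M' x) = n → IsM G a M' →
      M'.card = ν → dg M' w < a w → ∃ M'', IsM G a M'' ∧ M''.card = ν ∧
        dg M'' w < a w ∧ ∀ x, dg M x ≤ dg M'' x + dl w x := by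
    intro n
    induction n using Nat.strong_induction_on with
    | _ n ih =>
      intro M' hn hM' hc' hw'
      by_cases hle : ∀ x, dg M x ≤ dg M' x + dl w x
      · exact ⟨M', hM', hc', hw', hle⟩
      push Not at hle
      obtain ⟨x, hx1⟩ := hle
      rcases exchange _ M' M rfl hM'.1 hM.1 x (by omega) with ⟨N, hN, hNc, hNm⟩ |
        ⟨N, y, hN, hNc, hNy, hNd⟩
      · exfalso
        have := hν N ⟨hN, fun x => (hNm x).trans (max_le (hM'.2 x) (hM.2 x))⟩
        omega
      · have hxy : x ≠ y := by rintro rfl; omega
        have hNle : ∀ z, dg N z ≤ a z := by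
          intro z
          have q1 := hNd z
          by_cases hz : z = x
          · subst hz
            have := hM.2 z
            rw [dl_self] at q1
            omega
          · rw [dl_ne hz] at q1
            have := hM'.2 z
            omega
        have hNw : dg N w < a w := by
          have q1 := hNd w
          by_cases hz : w = x
          · subst hz
            have := hM.2 w
            rw [dl_self] at q1 hx1
            omega
          · rw [dl_ne hz] at q1
            omega
        refine ih _ ?_ N rfl ⟨hN, hNle⟩ (by omega) hNw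
        rw [← hn]
        refine Finset.sum_lt_sum (fun z _ => ?_) ⟨x, Finset.mem_univ _, ?_⟩
        · have q1 := hNd z
          by_cases hz : z = y
          · subst hz
            rw [dl_self, dl_ne (fun h => hxy h.symm)] at q1
            omega
          · rw [dl_ne hz] at q1
            omega
        · have q1 := hNd x
          rw [dl_self, dl_ne hxy] at q1
          omega
  obtain ⟨M0, hM0, hM0c, hM0w⟩ := hw
  obtain ⟨M', hM', hc', hw', hle⟩ := key _ M0 rfl hM0 hM0c hM0w
  have hle2 : ∀ x, dg M x + dl u x + dl v x ≤ dg M' x + dl w x := by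
    have n1 := h1 M' hM' hc'
    have n2 := h2 M' hM' hc'
    push Not at n1 n2
    obtain ⟨x1, hx1⟩ := n1
    obtain ⟨x2, hx2⟩ := n2
    have e1 : x1 = u := by
      by_contra hne
      rw [dl_ne hne] at hx1
      have := hM'.2 x1
      by_cases h3 : x1 = w
      · subst h3; rw [dl_self] at hx1; omega
      · rw [dl_ne h3] at hx1; omega
    have e2 : x2 = v := by
      by_contra hne
      rw [dl_ne hne] at hx2
      have := hM'.2 x2
      by_cases h3 : x2 = w
      · subst h3; rw [dl_self] at hx2; omega
      · rw [dl_ne h3] at hx2; omega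
    subst e1
    subst e2
    rw [dl_self, dl_ne huw] at hx1
    rw [dl_self, dl_ne hvw] at hx2
    intro x
    by_cases hxu : x = x1
    · subst hxu
      have := hx x
      omega
    · by_cases hxv : x = x2
      · subst hxv
        have := hx x
        omega
      · rw [dl_ne hxu, dl_ne hxv]
        exact hle x
  have hsum := Finset.sum_le_sum (s := Finset.univ) fun x _ => hle2 x
  simp only [Finset.sum_add_distrib, sum_dl, sum_dg hM.1, sum_dg hM'.1] at hsum
  omega

theorem exists_max (a : V → ℕ) : ∃ ν : ℕ, (∃ M, IsM G a M ∧ M.card = ν) ∧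
    ∀ M, IsM G a M → M.card ≤ ν := by
  classical
  have hex : ∃ ν : ℕ, ∀ M, IsM G a M → M.card ≤ ν := by
    refine ⟨∑ x, a x, fun M hM => ?_⟩
    have h1 := sum_dg hM.1
    have h2 := Finset.sum_le_sum (s := Finset.univ) fun x _ => hM.2 x
    omega
  refine ⟨Nat.find hex, ?_, Nat.find_spec hex⟩
  by_cases h0 : Nat.find hex = 0
  · exact ⟨0, ⟨IsE.zero, fun x => by rw [dg_zero]; exact Nat.zero_le _⟩, by simp [h0]⟩
  · have h1 := Nat.find_min hex (m := Nat.find hex - 1) (by omega)
    push Not at h1
    obtain ⟨M, hM, hM1⟩ := h1
    have h2 := Nat.find_spec hex M hM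
    exact ⟨M, hM, by omega⟩

open Classical in
theorem tb (hG : Gap G) : ∀ (n : ℕ) (a : V → ℕ), ∑ x, a x = n → ∀ ν : ℕ,
    (∀ M, IsM G a M → M.card ≤ ν) →
    ∃ F, Ind G F ∧ (∀ v ∈ F, 1 ≤ a v) ∧ (n : ℤ) - 1 - 2 * ν ≤ dd G a univ F := by
  intro n
  induction n using Nat.strong_induction_on with
  | _ n ih =>
    intro a ha ν' hν'
    obtain ⟨ν, ⟨M0, hM0, hM0c⟩, hν⟩ := exists_max (G := G) a
    have hνν' : ν ≤ ν' := by rw [← hM0c]; exact hν' M0 hM0
    suffices h : ∃ F, Ind G F ∧ (∀ v ∈ F, 1 ≤ a v) ∧ (n : ℤ) - 1 - 2 * ν ≤ dd G a univ F by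
      obtain ⟨F, h1, h2, h3⟩ := h
      exact ⟨F, h1, h2, by omega⟩
    by_cases hcase : ∃ v, 1 ≤ a v ∧ ∀ M, IsM G a M → M.card = ν → a v ≤ dg M v
    · obtain ⟨v, hv1, hv2⟩ := hcase
      set a' : V → ℕ := fun x => a x - dl v x with ha'
      have haa' : ∀ x, a x = a' x + dl v x := by
        intro x
        simp only [ha']
        by_cases hx : x = v
        · subst hx; rw [dl_self]; omega
        · rw [dl_ne hx]; rfl
      have hsum : ∑ x, a' x + 1 = n := by
        rw [← ha, ← sum_dl v, ← Finset.sum_add_distrib]
        exact Finset.sum_congr rfl fun x _ => (haa' x).symm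
      have hM' : ∀ M, IsM G a' M → M.card < ν := by
        intro M hM
        have hMa : IsM G a M := ⟨hM.1, fun x => by
          have := hM.2 x; have := haa' x; omega⟩
        have h1 := hν M hMa
        rcases Nat.lt_or_ge M.card ν with h2 | h2
        · exact h2
        · exfalso
          have h3 := hv2 M hMa (by omega)
          have h4 := hM.2 v
          have h5 := haa' v
          rw [dl_self] at h5
          omega
      have hν1 : 1 ≤ ν := by
        have := hM' 0 ⟨IsE.zero, fun x => by rw [dg_zero]; exact Nat.zero_le _⟩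
        omega
      obtain ⟨F, h1, h2, h3⟩ := ih (∑ x, a' x) (by omega) a' rfl (ν - 1) fun M hM => by
        have := hM' M hM; omega
      refine ⟨F, h1, fun x hx => ?_, ?_⟩
      · have := h2 x hx; have := haa' x; omega
      · have w1 : wt a' F ≤ wt a F := by
          unfold wt
          refine Finset.sum_le_sum fun x _ => ?_
          have := haa' x
          omega
        have w2 : wt a (nb G univ F) ≤ wt a' (nb G univ F) + 1 := by
          have e1 : wt a (nb G univ F) = wt a' (nb G univ F) +
              ∑ x ∈ nb G univ F, (dl v x : ℤ) := by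
            unfold wt
            rw [← Finset.sum_add_distrib]
            refine Finset.sum_congr rfl fun x _ => ?_
            have := haa' x
            omega
          have e2 : ∑ x ∈ nb G univ F, (dl v x : ℤ) ≤ ∑ x, (dl v x : ℤ) :=
            Finset.sum_le_sum_of_subset_of_nonneg (Finset.subset_univ _) fun _ _ _ => by positivity
          have e3 : ∑ x, (dl v x : ℤ) = 1 := by
            have := sum_dl v
            exact_mod_cast this
          omega
        unfold dd at h3 ⊢
        omega
    · push Not at hcase
      set F : Finset V := univ.filter fun v => 1 ≤ a v ∧ ∀ u, G.Adj v u → a u = 0 with hF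
      have hmF : ∀ v, v ∈ F ↔ 1 ≤ a v ∧ ∀ u, G.Adj v u → a u = 0 := by
        intro v; rw [hF, Finset.mem_filter]; simp
      refine ⟨F, ?_, fun v hv => ((hmF v).1 hv).1, ?_⟩
      · intro u hu v hv huv
        have h1 := ((hmF u).1 hu).2 v huv
        have h2 := ((hmF v).1 hv).1
        omega
      have hnb : wt a (nb G univ F) = 0 := by
        unfold wt
        refine Finset.sum_eq_zero fun x hx => ?_
        obtain ⟨_, u, hu, hux⟩ := mem_nb.1 hx
        rw [((hmF u).1 hu).2 x hux]; rfl
      -- residuals
      have hres : ∑ x ∈ Fᶜ, (a x - dg M0 x) ≤ 1 := by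
        by_contra hcon
        push Not at hcon
        obtain ⟨u, hu, hu1⟩ : ∃ u ∈ Fᶜ, 1 ≤ a u - dg M0 u := by
          by_contra hno
          push Not at hno
          have := Finset.sum_eq_zero (s := Fᶜ) (f := fun x => a x - dg M0 x) fun x hx => by
            have := hno x hx; omega
          omega
        obtain ⟨v, hv, hv1⟩ : ∃ v ∈ Fᶜ, ∀ x, dg M0 x + dl u x + dl v x ≤ a x := by
          by_cases h2 : 2 ≤ a u - dg M0 u
          · refine ⟨u, hu, fun x => ?_⟩
            by_cases hx : x = u
            · subst hx; rw [dl_self]; omega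
            · rw [dl_ne hx]
              have := hM0.2 x
              omega
          · rw [← Finset.add_sum_erase _ _ hu] at hcon
            obtain ⟨v, hv, hv1⟩ : ∃ v ∈ Fᶜ.erase u, 1 ≤ a v - dg M0 v := by
              by_contra hno
              push Not at hno
              have := Finset.sum_eq_zero (s := Fᶜ.erase u) (f := fun x => a x - dg M0 x)
                fun x hx => by have := hno x hx; omega
              omega
            obtain ⟨hvu, hvF⟩ := Finset.mem_erase.1 hv
            refine ⟨v, hvF, fun x => ?_⟩
            by_cases hx : x = u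
            · subst hx; rw [dl_self, dl_ne hvu.symm]; omega
            · rw [dl_ne hx]
              by_cases hx' : x = v
              · subst hx'; rw [dl_self]; omega
              · rw [dl_ne hx']
                have := hM0.2 x
                omega
        have hpos : ∀ x, x ∈ Fᶜ → 1 ≤ a x → ∃ y, G.Adj x y ∧ 1 ≤ a y := by
          intro x hx hx1
          rw [Finset.mem_compl, hmF] at hx
          push Not at hx
          obtain ⟨y, hy1, hy2⟩ := hx hx1
          exact ⟨y, hy1, by omega⟩
        obtain ⟨u', huu', hu'⟩ := hpos u hu (by omega)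
        have hav : 1 ≤ a v := by
          have := hv1 v
          rw [dl_self] at this
          omega
        have hau : 1 ≤ a u := by omega
        obtain ⟨v', hvv', hv'⟩ := hpos v hv hav
        have tr : ∀ p q r, 1 ≤ a q → Par G a ν p q → Par G a ν q r → Par G a ν p r := by
          intro p q r hq h1 h2
          exact Par.trans hν (hcase q hq) h1 h2
        have ad : ∀ p q, G.Adj p q → Par G a ν p q := fun p q h => Par.of_adj hν h
        have hPar : Par G a ν u v := by
          rcases hG u u' v v' huu' hvv' with h | h | h | h | h | h | h | h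
          · subst h
            exact tr u u' u hu' (ad _ _ huu') (ad _ _ huu'.symm)
          · subst h
            exact ad _ _ hvv'.symm
          · subst h
            exact ad _ _ huu'
          · subst h
            exact tr u u' v hu' (ad _ _ huu') (ad _ _ hvv'.symm)
          · exact ad _ _ h
          · exact tr u v' v hv' (ad _ _ h) (ad _ _ hvv'.symm)
          · exact tr u u' v hu' (ad _ _ huu') (ad _ _ h)
          · exact tr u v' v hv' (tr u u' v' hu' (ad _ _ huu') (ad _ _ h)) (ad _ _ hvv'.symm)
        exact hPar M0 hM0 hM0c hv1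
      have hsplit : ∑ x ∈ F, (a x - dg M0 x) + ∑ x ∈ Fᶜ, (a x - dg M0 x) =
          ∑ x, (a x - dg M0 x) := Finset.sum_add_sum_compl F _
      have htot : ∑ x, (a x - dg M0 x) + 2 * ν = n := by
        rw [← hM0c, ← sum_dg hM0.1, ← ha, ← Finset.sum_add_distrib]
        refine Finset.sum_congr rfl fun x _ => ?_
        have := hM0.2 x
        omega
      have hFle : ((∑ x ∈ F, (a x - dg M0 x) : ℕ) : ℤ) ≤ wt a F := by
        unfold wt
        push_cast
        refine Finset.sum_le_sum fun x _ => ?_
        have := hM0.2 x
        omega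
      unfold dd
      rw [hnb]
      omega

end Pool.Agent.H66.GapFree
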