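import Mathlib
import Pool.Agent.Lib_helper66.GapFree.Topo

/-!
# Vanishing for the complexes `Γ(S, κ)`: crowns and the induction
-/

open Finset Pool.Agent.LibHelper95.Reg

namespace Pool.Agent.H66.GapFree

set_option linter.unusedSectionVars false

variable {V : Type*} [Fintype V] [LinearOrder V] {k : Type*} [Field k]

variable {G : SimpleGraph V} {a : V → ℕ}

/-- A minimal crown. -/
structure Crown (G : SimpleGraph V) (a : V → ℕ) (S J : Finset V) : Prop where
  sub : J ⊆ S
  ne : J ≠ ∅
  ind : Ind G J
  nonneg : 0 ≤ dd G a S J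
  min : ∀ J0, J0 ⊆ J → J0 ≠ ∅ → J0 ≠ J → dd G a S J0 ≤ -1

theorem Crown.min0 {S J : Finset V} (h : Crown G a S J) {J0 : Finset V} (h0 : J0 ⊆ J)
    (h1 : J0 ≠ J) : dd G a S J0 ≤ 0 := by
  by_cases h2 : J0 = ∅
  · rw [h2, dd_empty]
  · have := h.min J0 h0 h2 h1
    omega

theorem exists_crown {S : Finset V}
    (h : ∃ F, F ⊆ S ∧ F ≠ ∅ ∧ Ind G F ∧ 0 ≤ dd G a S F) : ∃ J, Crown G a S J := by
  classical
  have hex : ∃ m, ∃ F, F.card = m ∧ F ⊆ S ∧ F ≠ ∅ ∧ Ind G F ∧ 0 ≤ dd G a S F := by
    obtain ⟨F, hF⟩ := h
    exact ⟨_, F, rfl, hF⟩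
  obtain ⟨J, h1, h2, h3, h4, h5⟩ := Nat.find_spec hex
  refine ⟨J, h2, h3, h4, h5, fun J0 h6 h7 h8 => ?_⟩
  by_contra hcon
  have h9 : J0.card < Nat.find hex := by
    rw [← h1]
    exact Finset.card_lt_card (Finset.ssubset_iff_subset_ne.2 ⟨h6, h8⟩)
  exact Nat.find_min hex h9 ⟨J0, rfl, h6.trans h2, h7, Ind.mono h6 h4, by omega⟩

theorem nb_disj_self {S J : Finset V} (hJ : Ind G J) : Disjoint J (nb G S J) := by
  rw [Finset.disjoint_left]
  intro x hx hx'
  obtain ⟨_, u, hu, hux⟩ := mem_nb.1 hx'
  exact hJ u hu x hx hux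

theorem nb_mono {S F F' : Finset V} (h : F ⊆ F') : nb G S F ⊆ nb G S F' := by
  intro w hw
  obtain ⟨h1, u, hu, huw⟩ := mem_nb.1 hw
  exact mem_nb.2 ⟨h1, u, h hu, huw⟩

theorem Crown.le_P {S J : Finset V} (h : Crown G a S J) {P : Finset V} (hP : P ⊆ nb G S J) :
    wt a P ≤ wt a (J ∩ nb G S P) := by
  have hB : nb G S (J \ nb G S P) ⊆ nb G S J \ P := by
    intro w hw
    obtain ⟨h1, u, hu, huw⟩ := mem_nb.1 hw
    obtain ⟨hu1, hu2⟩ := Finset.mem_sdiff.1 hu
    refine Finset.mem_sdiff.2 ⟨mem_nb.2 ⟨h1, u, hu1, huw⟩, fun hwP => hu2 ?_⟩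
    exact mem_nb.2 ⟨h.sub hu1, w, hwP, huw.symm⟩
  have e1 : wt a J = wt a (J ∩ nb G S P) + wt a (J \ nb G S P) := by
    rw [← wt_union_disj (Finset.disjoint_left.2 fun x hx hx' =>
      (Finset.mem_sdiff.1 hx').2 (Finset.mem_inter.1 hx).2), Finset.union_comm,
      Finset.sdiff_union_inter]
  have e2 := wt_sdiff (a := a) hP
  have e3 := wt_mono (a := a) hB
  have e4 := h.nonneg
  unfold dd at e4
  by_cases hJ : J \ nb G S P = J
  · have : P = ∅ := by
      by_contra hne
      obtain ⟨y, hy⟩ := Finset.nonempty_iff_ne_empty.2 hne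
      rw [hJ] at hB
      exact (Finset.mem_sdiff.1 (hB (hP hy))).2 hy
    rw [this, wt_empty]
    exact wt_nonneg _
  · have e5 := h.min0 Finset.sdiff_subset hJ
    unfold dd at e5
    omega

theorem Crown.strict {S J : Finset V} (h : Crown G a S J) (hpos : ∀ v ∈ S, 1 ≤ a v)
    {P : Finset V} (hP : P ⊆ nb G S J) (hne : P ≠ ∅) (hd : 0 ≤ dd G a S P) :
    P = nb G S J ∧ nb G S P = J ∧ wt a J = wt a P := by
  have hB : nb G S (J \ nb G S P) ⊆ nb G S J \ P := by
    intro w hw
    obtain ⟨h1, u, hu, huw⟩ := mem_nb.1 hw
    obtain ⟨hu1, hu2⟩ := Finset.mem_sdiff.1 hu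
    refine Finset.mem_sdiff.2 ⟨mem_nb.2 ⟨h1, u, hu1, huw⟩, fun hwP => hu2 ?_⟩
    exact mem_nb.2 ⟨h.sub hu1, w, hwP, huw.symm⟩
  have e1 : wt a J = wt a (J ∩ nb G S P) + wt a (J \ nb G S P) := by
    rw [← wt_union_disj (Finset.disjoint_left.2 fun x hx hx' =>
      (Finset.mem_sdiff.1 hx').2 (Finset.mem_inter.1 hx).2), Finset.union_comm,
      Finset.sdiff_union_inter]
  have e2 := wt_sdiff (a := a) hP
  have e3 := wt_mono (a := a) hB
  have e4 := h.nonneg
  have e6 : wt a (J ∩ nb G S P) ≤ wt a (nb G S P) := wt_mono Finset.inter_subset_right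
  unfold dd at e4 hd
  have hJ : J \ nb G S P ≠ J := by
    intro hJ
    apply hne
    by_contra hne
    obtain ⟨y, hy⟩ := Finset.nonempty_iff_ne_empty.2 hne
    rw [hJ] at hB
    exact (Finset.mem_sdiff.1 (hB (hP hy))).2 hy
  have hJ0 : J \ nb G S P = ∅ := by
    by_contra hne0
    have e5 := h.min _ Finset.sdiff_subset hne0 hJ
    unfold dd at e5
    omega
  have hsub : J ⊆ nb G S P := Finset.sdiff_eq_empty_iff_subset.1 hJ0
  have e7 := wt_mono (a := a) hsub
  have e8 := wt_mono (a := a) hP
  have f1 : nb G S J \ P = ∅ := by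
    refine wt_eq_zero (a := a) (fun v hv => hpos v (nb_subset (Finset.mem_sdiff.1 hv).1)) ?_
    omega
  have f2 : nb G S P \ J = ∅ := by
    refine wt_eq_zero (a := a) (fun v hv => hpos v (nb_subset (Finset.mem_sdiff.1 hv).1)) ?_
    rw [wt_sdiff hsub]
    omega
  exact ⟨Finset.Subset.antisymm hP (Finset.sdiff_eq_empty_iff_subset.1 f1),
    Finset.Subset.antisymm (Finset.sdiff_eq_empty_iff_subset.1 f2) hsub, by omega⟩

theorem Crown.ind_push {S J : Finset V} (h : Crown G a S J) {F : Finset V} (hFS : F ⊆ S)
    (hF : Ind G F) : Ind G ((F \ nb G S J) ∪ J) := by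
  intro u hu v hv huv
  rw [Finset.mem_union, Finset.mem_sdiff] at hu hv
  rcases hu with ⟨hu, hu'⟩ | hu <;> rcases hv with ⟨hv, hv'⟩ | hv
  · exact hF u hu v hv huv
  · exact hu' (mem_nb.2 ⟨hFS hu, v, hv, huv.symm⟩)
  · exact hv' (mem_nb.2 ⟨hFS hv, u, hu, huv⟩)
  · exact h.ind u hu v hv huv

theorem Crown.dd_push {S J : Finset V} (h : Crown G a S J) {F : Finset V} (hFS : F ⊆ S) :
    dd G a S F ≤ dd G a S ((F \ nb G S J) ∪ J) := by
  set Y := nb G S J with hY
  set A := F ∩ J with hA
  set P := F ∩ Y with hP
  have hJY : Disjoint J Y := nb_disj_self h.ind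
  -- weights
  have w1 : wt a ((F \ Y) ∪ J) = wt a (F \ Y) + wt a (J \ A) := by
    have : (F \ Y) ∪ J = (F \ Y) ∪ (J \ A) := by
      ext x
      simp only [hA, Finset.mem_union, Finset.mem_sdiff, Finset.mem_inter, not_and]
      constructor
      · rintro (h1 | h1)
        · exact Or.inl h1
        · by_cases h2 : x ∈ F
          · exact Or.inl ⟨h2, Finset.disjoint_left.1 hJY h1⟩
          · exact Or.inr ⟨h1, fun h3 => absurd h3 h2⟩
      · rintro (h1 | ⟨h1, _⟩)
        · exact Or.inl h1
        · exact Or.inr h1
    rw [this, wt_union_disj]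
    rw [Finset.disjoint_left]
    intro x hx hx'
    simp only [hA, Finset.mem_sdiff, Finset.mem_inter, not_and] at hx hx'
    exact hx'.2 hx.1 hx'.1
  have w2 : wt a F = wt a (F \ Y) + wt a P := by
    rw [← wt_union_disj (Finset.disjoint_left.2 fun x hx hx' =>
      (Finset.mem_sdiff.1 hx).2 (Finset.mem_inter.1 hx').2), Finset.sdiff_union_inter]
  -- neighbourhoods
  have hsub : nb G S ((F \ Y) ∪ J) ⊆ (nb G S F \ (J ∩ nb G S P)) ∪ (Y \ nb G S A) := by
    intro w hw
    obtain ⟨hwS, u, hu, huw⟩ := mem_nb.1 hw
    have hwn : w ∉ J ∩ nb G S P := by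
      intro hcon
      obtain ⟨hwJ, _⟩ := Finset.mem_inter.1 hcon
      rcases Finset.mem_union.1 hu with hu | hu
      · obtain ⟨hu1, hu2⟩ := Finset.mem_sdiff.1 hu
        exact hu2 (mem_nb.2 ⟨hFS hu1, w, hwJ, huw.symm⟩)
      · exact h.ind u hu w hwJ huw
    by_cases huF : u ∈ F
    · exact Finset.mem_union_left _ (Finset.mem_sdiff.2 ⟨mem_nb.2 ⟨hwS, u, huF, huw⟩, hwn⟩)
    · have huJ : u ∈ J := by
        rcases Finset.mem_union.1 hu with hu | hu
        · exact absurd (Finset.mem_sdiff.1 hu).1 huF
        · exact hu
      have hwY : w ∈ Y := mem_nb.2 ⟨hwS, u, huJ, huw⟩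
      by_cases hwA : w ∈ nb G S A
      · exact Finset.mem_union_left _ (Finset.mem_sdiff.2
          ⟨nb_mono Finset.inter_subset_left hwA, hwn⟩)
      · exact Finset.mem_union_right _ (Finset.mem_sdiff.2 ⟨hwY, hwA⟩)
  have n1 := wt_mono (a := a) hsub
  have n2 := wt_union_le (a := a) (nb G S F \ (J ∩ nb G S P)) (Y \ nb G S A)
  have n3 : wt a (nb G S F \ (J ∩ nb G S P)) = wt a (nb G S F) - wt a (J ∩ nb G S P) :=
    wt_sdiff (Finset.inter_subset_right.trans (nb_mono Finset.inter_subset_left))
  have n4 : wt a (Y \ nb G S A) = wt a Y - wt a (nb G S A) :=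
    wt_sdiff (nb_mono Finset.inter_subset_right)
  have n5 : wt a (J \ A) = wt a J - wt a A := wt_sdiff Finset.inter_subset_right
  have n6 := h.le_P (P := P) Finset.inter_subset_right
  have n7 : wt a A - wt a (nb G S A) ≤ wt a J - wt a Y := by
    by_cases hAJ : A = J
    · rw [hAJ]
    · have q1 : dd G a S A ≤ 0 := h.min0 Finset.inter_subset_right hAJ
      have q2 : 0 ≤ wt a J - wt a Y := h.nonneg
      unfold dd at q1
      omega
  unfold dd
  omega

theorem Crown.cone {S J : Finset V} (h : Crown G a S J) (κ : ℤ) (j : ℤ) :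
    CV k (KG G a S κ (S \ nb G S J)) j := by
  obtain ⟨x, hx⟩ := Finset.nonempty_iff_ne_empty.2 h.ne
  have hxY : x ∉ nb G S J := Finset.disjoint_left.1 (nb_disj_self h.ind) hx
  refine CV_cone x ?_ j
  rintro F ⟨h0, F', h1, h2, h3, h4⟩
  refine ⟨Finset.insert_subset (Finset.mem_sdiff.2 ⟨h.sub hx, hxY⟩) h0,
    (F' \ nb G S J) ∪ J, ?_, ?_, h.ind_push h2 h3, h4.trans (h.dd_push h2)⟩
  · refine Finset.insert_subset (Finset.mem_union_right _ hx) fun y hy => ?_
    exact Finset.mem_union_left _ (Finset.mem_sdiff.2 ⟨h1 hy, (Finset.mem_sdiff.1 (h0 hy)).2⟩)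
  · exact Finset.union_subset (Finset.sdiff_subset.trans h2) h.sub

/-- Adding the vertices of `T` one at a time. -/
theorem ADD_many {S : Finset V}
    (IH : ∀ S' : Finset V, S'.card < S.card → (∀ v ∈ S', 1 ≤ a v) → CW k G a S')
    (hpos : ∀ v ∈ S, 1 ≤ a v) {κ : ℤ} (hκ : Odd (κ + wt a S)) {U : Finset V} (hU : U ⊆ S)
    (hL : ∀ L, L ⊆ S \ U → L ≠ ∅ → Ind G L → dd G a S L ≤ -1) {j : ℤ} (hj : κ ≤ j)
    (h : CV k (KG G a S κ U) j) : CV k (Gam G a S κ) j := by
  have key : ∀ T : Finset V, T ⊆ S \ U → CV k (KG G a S κ (U ∪ T)) j := by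
    intro T
    induction T using Finset.induction_on with
    | empty => intro _; rw [Finset.union_empty]; exact h
    | insert v T hv ih =>
      intro hT
      have hv1 := Finset.mem_sdiff.1 (hT (Finset.mem_insert_self _ _))
      have hT' : T ⊆ S \ U := (Finset.subset_insert _ _).trans hT
      rw [Finset.union_insert]
      refine ADD IH hpos hκ (Finset.union_subset hU (hT'.trans Finset.sdiff_subset)) hv1.1 ?_ ?_ hj
        (ih hT')
      · simp only [Finset.mem_union, not_or]
        exact ⟨hv1.2, hv⟩
      · intro L hL1 hvL hI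
        refine hL L (hL1.trans ?_) (Finset.ne_empty_of_mem hvL) hI
        exact Finset.sdiff_subset_sdiff (Finset.Subset.refl _) Finset.subset_union_left
  have h1 := key (S \ U) (Finset.Subset.refl _)
  rwa [Finset.union_sdiff_of_subset hU, KG_self] at h1

theorem claimW (hG : Gap G) : ∀ (m : ℕ) (S : Finset V), S.card = m → (∀ v ∈ S, 1 ≤ a v) →
    CW k G a S := by
  intro m
  induction m using Nat.strong_induction_on with
  | _ m ih =>
    intro S hm hpos κ hκ j hj
    have IH : ∀ S' : Finset V, S'.card < S.card → (∀ v ∈ S', 1 ≤ a v) → CW k G a S' :=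
      fun S' hS' => ih S'.card (by omega) S' rfl
    by_cases hiso : ∃ x ∈ S, nb G S {x} = ∅
    · obtain ⟨x, hx, hx'⟩ := hiso
      exact CV_isolated hx hx' κ j
    push Not at hiso
    by_cases hcr : ∃ F, F ⊆ S ∧ F ≠ ∅ ∧ Ind G F ∧ 0 ≤ dd G a S F
    · obtain ⟨J, hJ⟩ := exists_crown hcr
      by_cases hsp : ∀ P, P ⊆ nb G S J → P ≠ ∅ → Ind G P → dd G a S P ≤ -1
      · refine ADD_many IH hpos hκ (U := S \ nb G S J) Finset.sdiff_subset ?_ hj (hJ.cone κ j)
        intro L hL
        rw [Finset.sdiff_sdiff_eq_self nb_subset] at hL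
        exact hsp L hL
      · push Not at hsp
        obtain ⟨P, hP1, hP2, hP3, hP4⟩ := hsp
        obtain ⟨q1, q2, q3⟩ := hJ.strict hpos hP1 hP2.ne_empty (by omega)
        set Y := nb G S J with hY
        subst q1
        -- `S = J ∪ Y`
        obtain ⟨x0, hx0⟩ := Finset.nonempty_iff_ne_empty.2 hJ.ne
        obtain ⟨y0, hy0⟩ := hiso x0 (hJ.sub hx0)
        have hadj0 : G.Adj x0 y0 := by
          obtain ⟨_, u, hu, huw⟩ := mem_nb.1 hy0
          rw [Finset.mem_singleton] at hu
          subst hu; exact huw
        have hSeq : S = J ∪ Y := by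
          refine Finset.Subset.antisymm (fun z hz => ?_)
            (Finset.union_subset hJ.sub nb_subset)
          by_contra hz'
          simp only [Finset.mem_union, not_or] at hz'
          obtain ⟨z', hz1⟩ := hiso z hz
          obtain ⟨hz'S, u, hu, huw⟩ := mem_nb.1 hz1
          rw [Finset.mem_singleton] at hu
          subst hu
          have hy0Y : y0 ∈ Y := mem_nb.2 ⟨(mem_nb.1 hy0).1, x0, hx0, hadj0⟩
          have hz'J : z' ∉ J := fun h => hz'.2 (mem_nb.2 ⟨hz, z', h, huw.symm⟩)
          have hz'Y : z' ∉ Y := fun h => hz'.1 (by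
            rw [← q2]; exact mem_nb.2 ⟨hz, z', h, huw.symm⟩)
          rcases hG x0 y0 u z' hadj0 huw with h | h | h | h | h | h | h | h
          · exact hz'.1 (h ▸ hx0)
          · exact hz'J (h ▸ hx0)
          · exact hz'.2 (h ▸ hy0Y)
          · exact hz'Y (h ▸ hy0Y)
          · exact hz'.2 (mem_nb.2 ⟨hz, x0, hx0, h⟩)
          · exact hz'Y (mem_nb.2 ⟨hz'S, x0, hx0, h⟩)
          · exact hz'.1 (by rw [← q2]; exact mem_nb.2 ⟨hz, y0, hy0Y, h⟩)
          · exact hz'J (by rw [← q2]; exact mem_nb.2 ⟨hz'S, y0, hy0Y, h⟩)
        have hJY : Disjoint J Y := nb_disj_self hJ.ind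
        have hwS : wt a S = 2 * wt a J := by
          conv_lhs => rw [hSeq]
          rw [wt_union_disj hJY]; omega
        have hJ0 : dd G a S J = 0 := by
          unfold dd; rw [← hY]; omega
        have hκodd : Odd κ := by
          rw [hwS] at hκ
          have := hκ.sub_even (even_two_mul (wt a J))
          rwa [add_sub_cancel_right] at this
        by_cases hκ0 : κ < 0
        · refine CV_void ?_ j
          rintro F ⟨F', h1, h2, h3, h4⟩
          have h5 := hJ.dd_push h2
          have h6 : (F' \ nb G S J) ∪ J = J := by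
            refine Finset.union_eq_right.2 fun x hx => ?_
            obtain ⟨hx1, hx2⟩ := Finset.mem_sdiff.1 hx
            have hx3 := h2 hx1
            rw [hSeq] at hx3
            rcases Finset.mem_union.1 hx3 with h | h
            · exact h
            · exact absurd h hx2
          rw [h6, hJ0] at h5
          omega
        · have hκ1 : 1 ≤ κ := by
            obtain ⟨r, hr⟩ := hκodd
            omega
          have hy0Y : y0 ∈ Y := mem_nb.2 ⟨(mem_nb.1 hy0).1, x0, hx0, hadj0⟩
          have hy0S : y0 ∈ S := nb_subset hy0Y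
          have hSY : S \ Y = J := by
            conv_lhs => rw [hSeq]
            ext x
            simp only [Finset.mem_sdiff, Finset.mem_union]
            constructor
            · rintro ⟨h | h, h'⟩
              · exact h
              · exact absurd h h'
            · exact fun h => ⟨Or.inl h, Finset.disjoint_left.1 hJY h⟩
          have hy0J : y0 ∉ J := fun h => Finset.disjoint_left.1 hJY h hy0Y
          refine ADD_many IH hpos hκ (U := insert y0 J)
            (Finset.insert_subset hy0S hJ.sub) ?_ hj ?_
          · intro L hL hne hI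
            have hLY : L ⊆ Y := by
              intro x hx
              obtain ⟨hx1, hx2⟩ := Finset.mem_sdiff.1 (hL hx)
              rw [hSeq] at hx1
              rcases Finset.mem_union.1 hx1 with h | h
              · exact absurd (Finset.mem_insert_of_mem h) hx2
              · exact h
            by_contra hcon
            obtain ⟨r1, _, _⟩ := hJ.strict hpos hLY hne (by omega)
            have : y0 ∈ L := by rw [r1]; exact hy0Y
            exact (Finset.mem_sdiff.1 (hL this)).2 (Finset.mem_insert_self _ _)
          · refine CV_add KG_down y0 ?_ ?_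
            · rw [del_KG, Finset.erase_insert hy0J]
              have := hJ.cone (k := k) κ j
              rwa [← hY, hSY] at this
            · -- the link
              by_cases hex : ∃ F0, F0 ≠ ∅ ∧ lk (KG G a S κ (insert y0 J)) y0 F0
              · obtain ⟨F0, hF0, hF0'⟩ := hex
                -- nested neighbourhoods
                have hnest : ∀ x ∈ J, ∀ x' ∈ J, nb G S {x} ⊆ nb G S {x'} ∨
                    nb G S {x'} ⊆ nb G S {x} := by
                  intro x hx x' hx'
                  by_contra hcon
                  push Not at hcon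
                  obtain ⟨hc1, hc2⟩ := hcon
                  obtain ⟨y, hy1, hy2⟩ := Finset.not_subset.1 hc1
                  obtain ⟨y', hy'1, hy'2⟩ := Finset.not_subset.1 hc2
                  have e1 : G.Adj x y := by
                    obtain ⟨_, u, hu, huw⟩ := mem_nb.1 hy1
                    rw [Finset.mem_singleton] at hu; subst hu; exact huw
                  have e2 : G.Adj x' y' := by
                    obtain ⟨_, u, hu, huw⟩ := mem_nb.1 hy'1
                    rw [Finset.mem_singleton] at hu; subst hu; exact huw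
                  have hyS := (mem_nb.1 hy1).1
                  have hy'S := (mem_nb.1 hy'1).1
                  have hyY : y ∈ Y := mem_nb.2 ⟨hyS, x, hx, e1⟩
                  have hy'Y : y' ∈ Y := mem_nb.2 ⟨hy'S, x', hx', e2⟩
                  have n1 : ¬ G.Adj x' y := fun h => hy2 (mem_nb.2
                    ⟨hyS, x', Finset.mem_singleton_self _, h⟩)
                  have n2 : ¬ G.Adj x y' := fun h => hy'2 (mem_nb.2
                    ⟨hy'S, x, Finset.mem_singleton_self _, h⟩)
                  rcases hG x y x' y' e1 e2 with h | h | h | h | h | h | h | h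
                  · subst h; exact n1 e1
                  · subst h; exact Finset.disjoint_left.1 hJY hx hy'Y
                  · subst h; exact Finset.disjoint_left.1 hJY hx' hyY
                  · subst h; exact n1 e2
                  · exact hJ.ind x hx x' hx' h
                  · exact n2 h
                  · exact n1 h.symm
                  · exact hP3 y hyY y' hy'Y h
                classical
                set J' := J.filter fun x => ¬ G.Adj y0 x with hJ'
                have hmemJ' : ∀ F, lk (KG G a S κ (insert y0 J)) y0 F → F ⊆ J' := by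
                  rintro F ⟨h1, h2, F', h3, h4, h5, h6⟩ x hx
                  rw [hJ', Finset.mem_filter]
                  refine ⟨?_, h5 y0 (h3 (Finset.mem_insert_self _ _)) x
                    (h3 (Finset.mem_insert_of_mem hx))⟩
                  rcases Finset.mem_insert.1 (h2 (Finset.mem_insert_of_mem hx)) with h | h
                  · exact absurd (h ▸ hx) h1
                  · exact h
                obtain ⟨z0, hz0⟩ := Finset.nonempty_iff_ne_empty.2 hF0
                obtain ⟨x1, hx1, hx1min⟩ := Finset.exists_min_image J'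
                  (fun x => (nb G S {x}).card) ⟨z0, hmemJ' F0 hF0' hz0⟩
                have hx1J : x1 ∈ J := (Finset.mem_filter.1 hx1).1
                have hx1y : ¬ G.Adj y0 x1 := (Finset.mem_filter.1 hx1).2
                have hx1le : ∀ x ∈ J', nb G S {x1} ⊆ nb G S {x} := by
                  intro x hx
                  rcases hnest x1 hx1J x (Finset.mem_filter.1 hx).1 with h | h
                  · exact h
                  · rw [Finset.eq_of_subset_of_card_le h (hx1min x hx)]
                have hstep : ∀ F, F ≠ ∅ → lk (KG G a S κ (insert y0 J)) y0 F →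
                    lk (KG G a S κ (insert y0 J)) y0 (insert x1 F) := by
                  intro F hne hF
                  have hFJ := hmemJ' F hF
                  obtain ⟨h1, h2, F', h3, h4, h5, h6⟩ := hF
                  obtain ⟨x, hx⟩ := Finset.nonempty_iff_ne_empty.2 hne
                  have hxF' : x ∈ F' := h3 (Finset.mem_insert_of_mem hx)
                  have hle : nb G S {x1} ⊆ nb G S {x} := hx1le x (hFJ hx)
                  refine ⟨?_, ?_, insert x1 F', ?_, ?_, ?_, ?_⟩
                  · intro h
                    rcases Finset.mem_insert.1 h with h | h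
                    · exact hy0J (h ▸ hx1J)
                    · exact h1 h
                  · rw [Finset.insert_comm]
                    exact Finset.insert_subset (Finset.mem_insert_of_mem hx1J) h2
                  · rw [Finset.insert_comm]
                    exact Finset.insert_subset_insert _ h3
                  · exact Finset.insert_subset (hJ.sub hx1J) h4
                  · refine h5.insert fun t ht htx => ?_
                    have := hle (mem_nb.2 ⟨h4 ht, x1, Finset.mem_singleton_self _, htx⟩)
                    obtain ⟨_, u, hu, huw⟩ := mem_nb.1 this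
                    rw [Finset.mem_singleton] at hu; subst hu
                    exact h5 u hxF' t ht huw
                  · refine h6.trans (dd_insert_le (hle.trans (nb_mono ?_)))
                    exact Finset.singleton_subset_iff.2 hxF'
                refine CV_cone x1 ?_ _
                intro F hF
                by_cases hne : F = ∅
                · subst hne
                  have h1 := hstep F0 hF0 hF0'
                  obtain ⟨h2, h3⟩ := h1
                  refine ⟨fun h => h2 ?_, KG_down _ _ ?_ h3⟩
                  · rcases Finset.mem_insert.1 h with h | h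
                    · rw [h]; exact Finset.mem_insert_self _ _
                    · simp at h
                  · refine Finset.insert_subset_insert _ ?_
                    exact Finset.insert_subset_insert _ (Finset.empty_subset _)
                · exact hstep F hne hF
              · push Not at hex
                refine CV_of_card fun F hF hc => ?_
                have : F = ∅ := by
                  by_contra hne
                  exact hex F (Finset.nonempty_iff_ne_empty.2 hne) hF
                rw [this, Finset.card_empty] at hc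
                push_cast at hc
                omega
    · push Not at hcr
      by_cases hκ0 : κ < 0
      · refine CV_void ?_ j
        rintro F ⟨F', h1, h2, h3, h4⟩
        by_cases hne : F' = ∅
        · rw [hne, dd_empty] at h4; omega
        · have := hcr F' h2 (Finset.nonempty_iff_ne_empty.2 hne) h3
          omega
      · refine ADD_many IH hpos hκ (U := ∅) (Finset.empty_subset _) ?_ hj ?_
        · intro L hL hne hI
          have := hcr L (hL.trans Finset.sdiff_subset) (Finset.nonempty_iff_ne_empty.2 hne) hI
          omega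
        · refine CV_of_card ?_
          rintro F ⟨hF, _⟩ hc
          rw [Finset.subset_empty.1 hF, Finset.card_empty] at hc
          push_cast at hc
          omega

end Pool.Agent.H66.GapFree
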