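import Mathlib
import Pool.Agent.Lib_helper66.GapFree.Topo2

/-!
# Vanishing for the complexes `Γ(S, κ)`: weights may be zero
-/

open Finset Pool.Agent.LibHelper95.Reg

namespace Pool.Agent.H66.GapFree

set_option linter.unusedSectionVars false

variable {V : Type*} [Fintype V] [LinearOrder V] {k : Type*} [Field k]

variable {G : SimpleGraph V} {a : V → ℕ}

theorem mem_nb_singleton {S : Finset V} {x y : V} : y ∈ nb G S {x} ↔ y ∈ S ∧ G.Adj x y := by
  rw [mem_nb]
  simp

theorem wt_erase_zero {F : Finset V} {w : V} (hw : a w = 0) : wt a (F.erase w) = wt a F := by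
  by_cases h : w ∈ F
  · conv_rhs => rw [← Finset.insert_erase h]
    rw [wt_insert (Finset.notMem_erase w F), hw]
    simp
  · rw [Finset.erase_eq_of_notMem h]

theorem nb_erase {S F : Finset V} {w : V} : nb G (S.erase w) F = (nb G S F).erase w := by
  ext x
  simp only [mem_nb, Finset.mem_erase]
  tauto

theorem dd_erase_zero {S F : Finset V} {w : V} (hw : a w = 0) :
    dd G a (S.erase w) F = dd G a S F := by
  unfold dd
  rw [nb_erase, wt_erase_zero hw]

theorem KG_erase_zero {S : Finset V} {κ : ℤ} {w : V} (hw : a w = 0) :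
    KG G a S κ (S.erase w) = Gam G a (S.erase w) κ := by
  funext F
  refine propext ⟨?_, ?_⟩
  · rintro ⟨h0, F', h1, h2, h3, h4⟩
    refine ⟨F'.erase w, fun x hx => Finset.mem_erase.2 ⟨(Finset.mem_erase.1 (h0 hx)).1, h1 hx⟩,
      Finset.erase_subset_erase _ h2, Ind.mono (Finset.erase_subset _ _) h3, h4.trans ?_⟩
    rw [dd_erase_zero hw]
    unfold dd
    rw [wt_erase_zero hw]
    have := wt_mono (a := a) (nb_mono (G := G) (S := S) (Finset.erase_subset w F'))
    omega
  · rintro ⟨F', h1, h2, h3, h4⟩
    refine ⟨h1.trans h2, F', h1, h2.trans (Finset.erase_subset _ _), h3, ?_⟩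
    rwa [dd_erase_zero hw] at h4

theorem wt_singleton_le {F : Finset V} {v : V} (h : v ∈ F) : (a v : ℤ) ≤ wt a F := by
  have h1 := wt_mono (a := a) (Finset.singleton_subset_iff.2 h)
  have h2 : wt a {v} = a v := Finset.sum_singleton _ _
  omega

theorem claim0 (hG : Gap G) : ∀ (m : ℕ) (S : Finset V), S.card = m → ∀ t : ℤ, 1 ≤ t →
    ∀ j, wt a S + 1 - 2 * t ≤ j → CV k (Gam G a S (wt a S + 1 - 2 * t)) j := by
  intro m
  induction m using Nat.strong_induction_on with
  | _ m ih =>
    intro S hm t ht j hj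
    by_cases hpos : ∀ v ∈ S, 1 ≤ a v
    · refine claimW hG m S hm hpos _ ?_ j hj
      exact ⟨wt a S - t, by ring⟩
    push Not at hpos
    obtain ⟨z, hz, hz0⟩ := hpos
    have hz0 : a z = 0 := by omega
    by_cases hw : ∃ w ∈ S, a w = 0 ∧ 1 ≤ wt a (nb G S {w})
    · obtain ⟨w, hwS, hw0, hw1⟩ := hw
      rw [← KG_self]
      have hsplit := wt_split (G := G) (a := a) hwS
      refine CV_add KG_down w ?_ ?_
      · rw [del_KG, KG_erase_zero hw0]
        have h1 := ih (S.erase w).card (by
          rw [← hm]; exact Finset.card_erase_lt_of_mem hwS) (S.erase w) rfl t ht j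
        rw [wt_erase_zero hw0] at h1
        exact h1 hj
      · rw [lk_KG hwS (Finset.Subset.refl _), KG_self]
        have e : wt a S + 1 - 2 * t + a w - wt a (nb G S {w}) = wt a (sN G S w) + 1 - 2 * t := by
          rw [hsplit, hw0]; push_cast; ring
        rw [e]
        refine ih (sN G S w).card (by rw [← hm]; exact sN_card_lt hwS) _ rfl t ht _ ?_
        rw [hw0] at hsplit
        push_cast at hsplit
        omega
    · push Not at hw
      by_cases hiso : ∃ x ∈ S, nb G S {x} = ∅
      · obtain ⟨x, hx, hx'⟩ := hiso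
        exact CV_isolated hx hx' _ j
      push Not at hiso
      have hnb : ∀ w ∈ S, a w = 0 → ∀ v ∈ S, G.Adj w v → a v = 0 := by
        intro w hwS hw0 v hv hwv
        have h1 := hw w hwS hw0
        have h2 := wt_singleton_le (a := a) (mem_nb_singleton.2 ⟨hv, hwv⟩)
        omega
      obtain ⟨z', hz'⟩ := hiso z hz
      obtain ⟨hz'S, hzz'⟩ := mem_nb_singleton.1 hz'
      have hz'0 := hnb z hz hz0 z' hz'S hzz'
      have hall : ∀ u ∈ S, a u = 0 := by
        intro u hu
        by_contra hne
        obtain ⟨u', hu'⟩ := hiso u hu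
        obtain ⟨hu'S, huu'⟩ := mem_nb_singleton.1 hu'
        have hne' : a u' ≠ 0 := fun h => hne (hnb u' hu'S h u hu huu'.symm)
        rcases hG z z' u u' hzz' huu' with h | h | h | h | h | h | h | h
        · exact hne (h ▸ hz0)
        · exact hne' (h ▸ hz0)
        · exact hne (h ▸ hz'0)
        · exact hne' (h ▸ hz'0)
        · exact hne (hnb z hz hz0 u hu h)
        · exact hne' (hnb z hz hz0 u' hu'S h)
        · exact hne (hnb z' hz'S hz'0 u hu h)
        · exact hne' (hnb z' hz'S hz'0 u' hu'S h)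
      have hwt : ∀ F, F ⊆ S → wt a F = 0 := by
        intro F hF
        unfold wt
        exact Finset.sum_eq_zero fun v hv => by rw [hall v (hF hv)]; rfl
      refine CV_void ?_ j
      rintro F ⟨F', h1, h2, h3, h4⟩
      unfold dd at h4
      rw [hwt _ h2, hwt _ nb_subset, hwt S (Finset.Subset.refl _)] at h4
      omega

end Pool.Agent.H66.GapFree
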