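import Mathlib
import Pool.Agent.Lib_helper66.GapFree.Match
import Pool.Agent.Lib_helper66.GapFree.Topo3

/-!
# Degree complexes of powers of edge ideals of gap-free graphs: large degrees
-/

open Finset Pool.Agent.LibHelper95.Reg

namespace Pool.Agent.H66.GapFree

set_option linter.unusedSectionVars false

variable {V : Type*} [Fintype V] [LinearOrder V] {k : Type*} [Field k]

variable {G : SimpleGraph V}

theorem sum_dl_finset (T : Finset V) (u : V) : ∑ x ∈ T, dl u x = if u ∈ T then 1 else 0 := by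
  unfold dl
  rw [Finset.sum_ite_eq' T u]

theorem two_card_le {F : Finset V} {M : Multiset (Sym2 V)} (hM : IsE G M) (hF : Ind G F) :
    2 * M.card ≤ ∑ x ∈ Fᶜ, dg M x + ∑ x ∈ nb G univ F, dg M x := by
  induction M using Multiset.induction with
  | empty => simp
  | cons e M ih =>
    induction e using Sym2.ind with
    | _ u w =>
      have huw : G.Adj u w := hM _ (Multiset.mem_cons_self _ _)
      have h1 := ih (fun e he => hM e (Multiset.mem_cons_of_mem he))
      simp only [dg_cons huw.ne, Finset.sum_add_distrib, sum_dl_finset, Multiset.card_cons,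
        Finset.mem_compl]
      have h2 : u ∈ F → w ∉ F ∧ w ∈ nb G univ F := fun hu =>
        ⟨fun hw => hF u hu w hw huw, mem_nb.2 ⟨Finset.mem_univ _, u, hu, huw⟩⟩
      have h3 : w ∈ F → u ∉ F ∧ u ∈ nb G univ F := fun hw =>
        ⟨fun hu => hF u hu w hw huw, mem_nb.2 ⟨Finset.mem_univ _, w, hw, huw.symm⟩⟩
      by_cases hu : u ∈ F
      · obtain ⟨h4, h5⟩ := h2 hu
        simp only [hu, h4, h5, not_true_eq_false, not_false_eq_true, if_true, if_false]
        omega
      · by_cases hw : w ∈ F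
        · obtain ⟨h4, h5⟩ := h3 hw
          simp only [hw, h4, h5, not_true_eq_false, not_false_eq_true, if_true, if_false]
          omega
        · simp only [hu, hw, not_false_eq_true, if_true]
          omega

theorem wt_univ {a : V → ℕ} {S : Finset V} (h : ∀ v, v ∉ S → a v = 0) :
    wt a S = ∑ x, (a x : ℤ) := by
  unfold wt
  refine Finset.sum_subset (Finset.subset_univ _) fun x _ hx => ?_
  rw [h x hx]; rfl

theorem wt_nb_univ {a : V → ℕ} {S F : Finset V} (h : ∀ v, v ∉ S → a v = 0) :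
    wt a (nb G S F) = wt a (nb G univ F) := by
  unfold wt
  refine Finset.sum_subset ?_ fun x hx hx' => ?_
  · intro x hx
    obtain ⟨_, h2⟩ := mem_nb.1 hx
    exact mem_nb.2 ⟨Finset.mem_univ _, h2⟩
  · rw [h x]
    · rfl
    · intro hxS
      exact hx' (mem_nb.2 ⟨hxS, (mem_nb.1 hx).2⟩)

theorem sum_ite_mem' (T F : Finset V) (N : ℕ) :
    ∑ x ∈ T, (((if x ∈ F then N else 0 : ℕ)) : ℤ) = N * (T ∩ F).card := by
  rw [← Nat.cast_sum, Finset.sum_ite_mem, Finset.sum_const, smul_eq_mul]
  push_cast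
  ring

/-- The degree complex in large degree is a complex `Γ`. -/
theorem degree_complex_iff (hG : Gap G) {a : V → ℕ} {S : Finset V} (h : ∀ v, v ∉ S → a v = 0)
    {q : ℕ} (F : Finset V) :
    (F ⊆ S ∧ ¬ ∃ N : ℕ, (fun x => a x + if x ∈ F then N else 0) ∈ Pw G q) ↔
      Gam G a S (2 * q - 1 - ∑ x, (a x : ℤ)) F := by
  constructor
  · rintro ⟨hFS, hno⟩
    push Not at hno
    have hq : 1 ≤ q := by
      by_contra hq
      have hq0 : q = 0 := by omega
      subst hq0
      exact hno 0 ⟨0, IsE.zero, rfl, fun x => by rw [dg_zero]; exact Nat.zero_le _⟩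
    set b : V → ℕ := fun x => a x + if x ∈ F then 2 * q else 0 with hb
    have hcard : ∀ M, IsM G b M → M.card ≤ q - 1 := by
      intro M hM
      by_contra hcon
      push Not at hcon
      have hps : 0 < (Multiset.powersetCard q M).card := by
        rw [Multiset.card_powersetCard]; exact Nat.choose_pos (by omega)
      obtain ⟨M1, hM1'⟩ := Multiset.card_pos_iff_exists_mem.1 hps
      obtain ⟨hM1, hc1⟩ := Multiset.mem_powersetCard.1 hM1'
      refine hno (2 * q) ⟨M1, fun e he => hM.1 e (Multiset.mem_of_le hM1 he), hc1, fun x => ?_⟩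
      exact (Multiset.countP_le_of_le _ hM1).trans (hM.2 x)
    obtain ⟨F', h1, h2, h3⟩ := tb hG _ b rfl (q - 1) hcard
    have hwb : ∀ T : Finset V, wt b T = wt a T + (2 * q : ℕ) * (T ∩ F).card := by
      intro T
      unfold wt
      rw [← sum_ite_mem', ← Finset.sum_add_distrib]
      refine Finset.sum_congr rfl fun x _ => ?_
      rw [hb]; push_cast; ring
    have hsb : ((∑ x, b x : ℕ) : ℤ) = ∑ x, (a x : ℤ) + (2 * q : ℕ) * F.card := by
      have := hwb univ
      unfold wt at this
      rw [Finset.univ_inter] at this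
      push_cast at this ⊢
      exact this
    have hF'S : F' ⊆ S := by
      intro v hv
      by_contra hvS
      have h4 := h2 v hv
      have h5 := h v hvS
      have h6 : v ∉ F := fun h => hvS (hFS h)
      simp only [hb, h5, if_neg h6] at h4
      omega
    have hle : wt a F' ≤ ∑ x, (a x : ℤ) := by
      rw [← wt_univ h]
      exact wt_mono hF'S
    unfold dd at h3
    rw [hwb F', hwb (nb G univ F'), hsb] at h3
    have hn0 := wt_nonneg (a := a) (nb G univ F')
    have hsubF : F ⊆ F' := by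
      by_contra hcon
      have hlt : (F' ∩ F).card + 1 ≤ F.card := by
        refine Finset.card_lt_card ⟨Finset.inter_subset_right, fun h7 => hcon fun x hx => ?_⟩
        exact (Finset.mem_inter.1 (h7 hx)).1
      have hlt' : ((F' ∩ F).card : ℤ) + 1 ≤ F.card := by exact_mod_cast hlt
      have hmul : ((2 * q : ℕ) : ℤ) * ((F' ∩ F).card + 1) ≤ ((2 * q : ℕ) : ℤ) * F.card :=
        mul_le_mul_of_nonneg_left hlt' (by positivity)
      have hnn : 0 ≤ ((2 * q : ℕ) : ℤ) * (nb G univ F' ∩ F).card := by positivity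
      rw [mul_add, mul_one] at hmul
      push_cast [Nat.cast_sub hq] at h3 hmul hnn
      nlinarith
    refine ⟨F', hsubF, hF'S, h1, ?_⟩
    have hint : F' ∩ F = F := Finset.inter_eq_right.2 hsubF
    rw [hint] at h3
    have hnn : 0 ≤ ((2 * q : ℕ) : ℤ) * (nb G univ F' ∩ F).card := by positivity
    unfold dd
    rw [wt_nb_univ h]
    push_cast [Nat.cast_sub hq] at h3 hnn
    linarith
  · rintro ⟨F', h1, h2, h3, h4⟩
    refine ⟨h1.trans h2, ?_⟩
    rintro ⟨N, M, hM, hc, hd⟩
    have h5 := two_card_le hM h3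
    have h6 : ∑ x ∈ F'ᶜ, dg M x ≤ ∑ x ∈ F'ᶜ, a x := by
      refine Finset.sum_le_sum fun x hx => ?_
      have h7 := hd x
      have h8 : x ∉ F := fun h => (Finset.mem_compl.1 hx) (h1 h)
      simp only [if_neg h8, add_zero] at h7
      exact h7
    have h7 : ∑ x ∈ nb G univ F', dg M x ≤ ∑ x ∈ nb G univ F', a x := by
      refine Finset.sum_le_sum fun x hx => ?_
      have h7 := hd x
      have h8 : x ∉ F := fun h => Finset.disjoint_left.1 (nb_disj_self h3) (h1 h) hx
      simp only [if_neg h8, add_zero] at h7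
      exact h7
    have h8 : ∑ x ∈ F', a x + ∑ x ∈ F'ᶜ, a x = ∑ x, a x := Finset.sum_add_sum_compl F' _
    unfold dd at h4
    rw [wt_nb_univ h] at h4
    unfold wt at h4
    zify at h5 h6 h7 h8 hc
    linarith

theorem CV_big (hG : Gap G) (a : V → ℕ) (S : Finset V) (h : ∀ v, v ∉ S → a v = 0) (q : ℕ)
    (hq : q ≤ ∑ x, a x) (j : ℤ) (hj : 2 * q - 1 - ∑ x, (a x : ℤ) ≤ j) :
    CV k (fun F => F ⊆ S ∧ ¬ ∃ N : ℕ, (fun x => a x + if x ∈ F then N else 0) ∈ Pw G q) j := by
  have h1 : (fun F => F ⊆ S ∧ ¬ ∃ N : ℕ, (fun x => a x + if x ∈ F then N else 0) ∈ Pw G q) =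
      Gam G a S (wt a S + 1 - 2 * (∑ x, (a x : ℤ) - q + 1)) := by
    funext F
    refine propext ((degree_complex_iff hG h F).trans ?_)
    have e : (2 * q - 1 - ∑ x, (a x : ℤ)) = wt a S + 1 - 2 * (∑ x, (a x : ℤ) - q + 1) := by
      rw [wt_univ h]; ring
    rw [e]
  rw [h1]
  refine claim0 hG S.card S rfl _ ?_ j ?_
  · have : (q : ℤ) ≤ ∑ x, (a x : ℤ) := by exact_mod_cast hq
    omega
  · rw [wt_univ h]
    omega

end Pool.Agent.H66.GapFree
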